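import Pool.Agent.Helper15.CK.Space

set_option autoImplicit false

/-! Operators on `C(K)`: matrices, exceptional stages, existence of good branches. -/

open Filter Topology Cardinal

namespace Pool.Agent.Helper15.CK

namespace Family

variable (Γ : Family)

/-- indicator function of a generating set -/
noncomputable def chi {B : Set W} (hB : Γ.Gen B) : C(Γ.KK, ℝ) where
  toFun y := if Γ.ev hB y = true then 1 else 0
  continuous_toFun := by
    have : Continuous fun b : Bool => (if b = true then (1 : ℝ) else 0) := continuous_of_discreteTopology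
    exact this.comp (Γ.continuous_ev hB)

open Classical in
lemma chi_e {B : Set W} (hB : Γ.Gen B) (n : W) : Γ.chi hB (Γ.e n) = if n ∈ B then 1 else 0 := by
  by_cases h : n ∈ B
  · rw [if_pos h]; change (if Γ.ev hB (Γ.e n) = true then (1 : ℝ) else 0) = 1
    rw [if_pos ((Γ.ev_e _ _).2 h)]
  · rw [if_neg h]; change (if Γ.ev hB (Γ.e n) = true then (1 : ℝ) else 0) = 0
    rw [if_neg (fun h' => h ((Γ.ev_e _ _).1 h'))]

/-- the function `1` at the isolated point `e m`, and `0` elsewhere -/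
noncomputable def dl (m : W) : C(Γ.KK, ℝ) := Γ.chi (Gen.single m)

open Classical in
lemma dl_e (m n : W) : Γ.dl m (Γ.e n) = if n = m then 1 else 0 := by
  rw [dl, chi_e]
  by_cases h : n = m <;> simp [h]

lemma norm_le_of_e {f : C(Γ.KK, ℝ)} {c : ℝ} (h : ∀ n, |f (Γ.e n)| ≤ c) : ‖f‖ ≤ c := by
  have hc : 0 ≤ c := (abs_nonneg _).trans (h [])
  rw [ContinuousMap.norm_le _ hc]
  refine Γ.induction_e ?_ h
  exact isClosed_le (continuous_norm.comp f.continuous) continuous_const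

lemma ext_e {f g : C(Γ.KK, ℝ)} (h : ∀ n, f (Γ.e n) = g (Γ.e n)) : f = g := by
  ext y
  revert y
  exact Γ.induction_e (isClosed_eq f.continuous g.continuous) h

/-- matrix of an operator -/
noncomputable def mat (T : C(Γ.KK, ℝ) →L[ℝ] C(Γ.KK, ℝ)) : W → W → ℝ := fun n m => T (Γ.dl m) (Γ.e n)

open Classical in
lemma sum_dl_e (F : Finset W) (c : W → ℝ) (n : W) :
    (∑ m ∈ F, c m • Γ.dl m) (Γ.e n) = if n ∈ F then c n else 0 := by
  rw [ContinuousMap.coe_sum, Finset.sum_apply]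
  simp only [ContinuousMap.coe_smul, Pi.smul_apply, smul_eq_mul, dl_e, mul_ite, mul_one, mul_zero]
  rw [Finset.sum_ite_eq]

lemma norm_sum_dl_le (F : Finset W) (c : W → ℝ) {C : ℝ} (hC : 0 ≤ C) (hc : ∀ m ∈ F, |c m| ≤ C) :
    ‖∑ m ∈ F, c m • Γ.dl m‖ ≤ C := by
  classical
  refine Γ.norm_le_of_e fun n => ?_
  rw [sum_dl_e]
  split_ifs with h
  · exact hc n h
  · simpa using hC

lemma apply_sum_dl (T : C(Γ.KK, ℝ) →L[ℝ] C(Γ.KK, ℝ)) (F : Finset W) (c : W → ℝ) (n : W) :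
    T (∑ m ∈ F, c m • Γ.dl m) (Γ.e n) = ∑ m ∈ F, c m * Γ.mat T n m := by
  rw [map_sum, ContinuousMap.coe_sum, Finset.sum_apply]
  refine Finset.sum_congr rfl fun m _ => ?_
  rw [map_smul]; rfl

lemma apply_e_le (T : C(Γ.KK, ℝ) →L[ℝ] C(Γ.KK, ℝ)) (f : C(Γ.KK, ℝ)) (y : Γ.KK) :
    |T f y| ≤ ‖T‖ * ‖f‖ :=
  ((T f).norm_coe_le_norm y).trans (T.le_opNorm f)

lemma mat_row (T : C(Γ.KK, ℝ) →L[ℝ] C(Γ.KK, ℝ)) (n : W) (F : Finset W) :
    ∑ m ∈ F, |Γ.mat T n m| ≤ ‖T‖ := by
  have h1 := Γ.apply_sum_dl T F (fun m => SignType.sign (Γ.mat T n m)) n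
  have h2 : ∑ m ∈ F, ((SignType.sign (Γ.mat T n m) : ℝ)) * Γ.mat T n m
      = ∑ m ∈ F, |Γ.mat T n m| :=
    Finset.sum_congr rfl fun m _ => by rw [sign_mul_self]
  rw [← h2, ← h1]
  refine (le_abs_self _).trans ((Γ.apply_e_le T _ _).trans ?_)
  refine (mul_le_mul_of_nonneg_left (Γ.norm_sum_dl_le F _ zero_le_one ?_) T.opNorm_nonneg).trans ?_
  · intro m _
    rcases SignType.sign (Γ.mat T n m) with _ | _ | _ <;> simp
  · simp

lemma gen_self {ζ : Idx} {d : Data} (hd : Γ.D ζ = some d) : Γ.Gen d.A := by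
  have := Gen.sh (Γ := Γ) ζ d hd [] []
  rwa [sh_nil_nil] at this

lemma finite_inter_of_conv {A B : Set W} {α β : Br} (hA : Conv A α) (hB : Conv B β) (h : α ≠ β) :
    (A ∩ B).Finite := by
  obtain ⟨j, hj⟩ := exists_suf_ne h
  refine ((hA j).union (hB j)).subset ?_
  rintro m ⟨h1, h2⟩
  by_cases h3 : suf α j <:+ m
  · right
    refine ⟨h2, fun h4 => hj (suf_eq_of_suffix h3 h4)⟩
  · left; exact ⟨h1, h3⟩

/-- stages for which the matrix formula fails at row `n` -/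
def Exc (T : C(Γ.KK, ℝ) →L[ℝ] C(Γ.KK, ℝ)) (n : W) : Set Idx :=
  {ζ | ∃ (d : Data) (hd : Γ.D ζ = some d),
    T (Γ.chi (Γ.gen_self hd)) (Γ.e n) ≠ ∑' m, d.A.indicator (Γ.mat T n) m}

open Classical in
/-- the defect at a stage -/
noncomputable def defect (T : C(Γ.KK, ℝ) →L[ℝ] C(Γ.KK, ℝ)) (n : W) (ζ : Idx) : ℝ :=
  if h : ∃ d, Γ.D ζ = some d then
    T (Γ.chi (Γ.gen_self h.choose_spec)) (Γ.e n) - ∑' m, h.choose.A.indicator (Γ.mat T n) m
  else 0

lemma countable_Exc (T : C(Γ.KK, ℝ) →L[ℝ] C(Γ.KK, ℝ)) (n : W) : (Γ.Exc T n).Countable := by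
  classical
  have hsum : Summable fun m => |Γ.mat T n m| :=
    summable_of_sum_le (fun _ => abs_nonneg _) (Γ.mat_row T n)
  have hsum' : Summable (Γ.mat T n) := hsum.of_abs
  have hT : ∑' m, |Γ.mat T n m| ≤ ‖T‖ := hsum.tsum_le_of_sum_le (Γ.mat_row T n)
  -- finite sums of defects are bounded
  have key : ∀ s : Finset Idx, ∑ ζ ∈ s, |Γ.defect T n ζ| ≤ ‖T‖ + ‖T‖ := by
    intro s
    let s' := s.filter fun ζ => ∃ d, Γ.D ζ = some d
    have hs' : ∑ ζ ∈ s, |Γ.defect T n ζ| = ∑ ζ ∈ s', |Γ.defect T n ζ| := by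
      rw [Finset.sum_filter]
      refine Finset.sum_congr rfl fun ζ _ => ?_
      split_ifs with h
      · rfl
      · rw [defect, dif_neg h, abs_zero]
    rw [hs']
    -- choose the data
    let dat : Idx → Data := fun ζ => if h : ∃ d, Γ.D ζ = some d then h.choose else
      ⟨0, 0, ∅, fun _ => []⟩
    have hdat : ∀ ζ ∈ s', Γ.D ζ = some (dat ζ) := by
      intro ζ hζ
      have h := (Finset.mem_filter.1 hζ).2
      simp only [dat, dif_pos h]
      exact h.choose_spec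
    have hdef : ∀ ζ (hζ : ζ ∈ s'), Γ.defect T n ζ
        = T (Γ.chi (Γ.gen_self (hdat ζ hζ))) (Γ.e n) - ∑' m, (dat ζ).A.indicator (Γ.mat T n) m := by
      intro ζ hζ
      have h := (Finset.mem_filter.1 hζ).2
      have h2 : h.choose = dat ζ := by simp only [dat, dif_pos h]
      rw [defect, dif_pos h]
      congr 2
      · congr 1
        congr 1
        exact congrArg Data.A h2
      · rw [h2]
    -- the finite exceptional set
    have hfin : (⋃ ζ ∈ s', ⋃ ξ ∈ s', {m | ζ ≠ ξ ∧ m ∈ (dat ζ).A ∩ (dat ξ).A}).Finite := by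
      refine Set.Finite.biUnion (Finset.finite_toSet _) fun ζ hζ => ?_
      refine Set.Finite.biUnion (Finset.finite_toSet _) fun ξ hξ => ?_
      by_cases h : ζ = ξ
      · refine Set.Finite.subset Set.finite_empty ?_
        rintro m ⟨h', -⟩
        exact absurd h h'
      · refine (finite_inter_of_conv (Γ.cert _ _ (hdat ζ hζ)).hA (Γ.cert _ _ (hdat ξ hξ)).hA
          fun h' => h (Γ.α_inj (hdat ζ hζ) (hdat ξ hξ) h')).subset ?_
        rintro m ⟨-, hm⟩
        exact hm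
    let Φ : Finset W := hfin.toFinset
    have hΦ : ∀ ζ ∈ s', ∀ ξ ∈ s', ζ ≠ ξ → ∀ m ∉ Φ, m ∈ (dat ζ).A → m ∉ (dat ξ).A := by
      intro ζ hζ ξ hξ hne m hm h1 h2
      apply hm
      rw [Set.Finite.mem_toFinset]
      simp only [Set.mem_iUnion]
      exact ⟨ζ, hζ, ξ, hξ, hne, h1, h2⟩
    -- reduced functions
    let g : Idx → C(Γ.KK, ℝ) := fun ζ => if hζ : ζ ∈ s' then
      Γ.chi (Γ.gen_self (hdat ζ hζ)) - ∑ m ∈ Φ, (if m ∈ (dat ζ).A then (1 : ℝ) else 0) • Γ.dl m
      else 0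
    have hg : ∀ ζ ∈ s', ∀ k, g ζ (Γ.e k) = if k ∈ (dat ζ).A ∧ k ∉ Φ then 1 else 0 := by
      intro ζ hζ k
      simp only [g, dif_pos hζ]
      rw [ContinuousMap.sub_apply, chi_e, sum_dl_e]
      by_cases h1 : k ∈ (dat ζ).A <;> by_cases h2 : k ∈ Φ <;> simp [h1, h2]
    have hTg : ∀ ζ ∈ s', Γ.defect T n ζ
        = T (g ζ) (Γ.e n) - ∑' m, ((dat ζ).A \ Φ).indicator (Γ.mat T n) m := by
      intro ζ hζ
      rw [hdef ζ hζ]
      simp only [g, dif_pos hζ]
      rw [map_sub, ContinuousMap.sub_apply, apply_sum_dl]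
      have e1 : ∑ m ∈ Φ, (if m ∈ (dat ζ).A then (1 : ℝ) else 0) * Γ.mat T n m
          = ∑' m, ((dat ζ).A ∩ Φ).indicator (Γ.mat T n) m := by
        rw [tsum_eq_sum (s := Φ)]
        · refine Finset.sum_congr rfl fun m hm => ?_
          by_cases h1 : m ∈ (dat ζ).A
          · rw [if_pos h1, one_mul, Set.indicator_of_mem]
            exact ⟨h1, hm⟩
          · rw [if_neg h1, zero_mul, Set.indicator_of_notMem]
            exact fun h => h1 h.1
        · intro m hm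
          exact Set.indicator_of_notMem (fun h => hm h.2) _
      have e2 : ∑' m, (dat ζ).A.indicator (Γ.mat T n) m
          = ∑' m, ((dat ζ).A ∩ Φ).indicator (Γ.mat T n) m
            + ∑' m, ((dat ζ).A \ Φ).indicator (Γ.mat T n) m := by
        rw [← (hsum'.indicator _).tsum_add (hsum'.indicator _)]
        refine tsum_congr fun m => ?_
        by_cases h1 : m ∈ (dat ζ).A <;> by_cases h2 : m ∈ (Φ : Set W) <;> simp [h1, h2]
      rw [e1, e2]; ring
    -- first sum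
    have b1 : ∑ ζ ∈ s', |T (g ζ) (Γ.e n)| ≤ ‖T‖ := by
      have h1 : ∑ ζ ∈ s', |T (g ζ) (Γ.e n)|
          = T (∑ ζ ∈ s', ((SignType.sign (T (g ζ) (Γ.e n)) : ℝ)) • g ζ) (Γ.e n) := by
        rw [map_sum, ContinuousMap.coe_sum, Finset.sum_apply]
        refine Finset.sum_congr rfl fun ζ _ => ?_
        rw [map_smul, ContinuousMap.coe_smul, Pi.smul_apply, smul_eq_mul, sign_mul_self]
      rw [h1]
      refine (le_abs_self _).trans ((Γ.apply_e_le T _ _).trans ?_)
      have h2 : ‖∑ ζ ∈ s', ((SignType.sign (T (g ζ) (Γ.e n)) : ℝ)) • g ζ‖ ≤ 1 := by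
        refine Γ.norm_le_of_e fun k => ?_
        rw [ContinuousMap.coe_sum, Finset.sum_apply]
        by_cases hk : ∃ ζ ∈ s', k ∈ (dat ζ).A ∧ k ∉ Φ
        · obtain ⟨ζ, hζ, hk1, hk2⟩ := hk
          rw [Finset.sum_eq_single ζ]
          · rw [ContinuousMap.coe_smul, Pi.smul_apply, hg ζ hζ, if_pos ⟨hk1, hk2⟩]
            rcases SignType.sign (T (g ζ) (Γ.e n)) with _ | _ | _ <;> simp
          · intro ξ hξ hne
            rw [ContinuousMap.coe_smul, Pi.smul_apply, hg ξ hξ, if_neg, smul_zero]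
            exact fun h => hΦ ζ hζ ξ hξ hne.symm k hk2 hk1 h.1
          · intro h; exact absurd hζ h
        · rw [Finset.sum_eq_zero]
          · simp
          · intro ξ hξ
            rw [ContinuousMap.coe_smul, Pi.smul_apply, hg ξ hξ, if_neg, smul_zero]
            exact fun h => hk ⟨ξ, hξ, h⟩
      calc ‖T‖ * ‖∑ ζ ∈ s', ((SignType.sign (T (g ζ) (Γ.e n)) : ℝ)) • g ζ‖ ≤ ‖T‖ * 1 :=
            mul_le_mul_of_nonneg_left h2 T.opNorm_nonneg
        _ = ‖T‖ := mul_one _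
    have b2 : ∑ ζ ∈ s', |∑' m, ((dat ζ).A \ Φ).indicator (Γ.mat T n) m| ≤ ‖T‖ := by
      have h1 : ∀ ζ ∈ s', |∑' m, ((dat ζ).A \ Φ).indicator (Γ.mat T n) m|
          ≤ ∑' m, ((dat ζ).A \ Φ).indicator (fun m => |Γ.mat T n m|) m := by
        intro ζ _
        have h2 : Summable fun m => |((dat ζ).A \ Φ).indicator (Γ.mat T n) m| :=
          (hsum'.indicator _).abs
        refine (norm_tsum_le_tsum_norm (f := ((dat ζ).A \ Φ).indicator (Γ.mat T n)) h2).trans_eq ?_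
        refine tsum_congr fun m => ?_
        by_cases h : m ∈ (dat ζ).A \ Φ <;> simp [h]
      refine (Finset.sum_le_sum h1).trans ?_
      rw [← Summable.tsum_finsetSum fun ζ _ => hsum.indicator _]
      refine le_trans ?_ hT
      refine Summable.tsum_le_tsum ?_ (summable_sum fun ζ _ => hsum.indicator _) hsum
      intro m
      by_cases hk : ∃ ζ ∈ s', m ∈ (dat ζ).A \ Φ
      · obtain ⟨ζ, hζ, hm⟩ := hk
        rw [Finset.sum_eq_single ζ]
        · rw [Set.indicator_of_mem hm]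
        · intro ξ hξ hne
          rw [Set.indicator_of_notMem]
          exact fun h => hΦ ζ hζ ξ hξ hne.symm m (by simpa using hm.2) hm.1 h.1
        · intro h; exact absurd hζ h
      · rw [Finset.sum_eq_zero]
        · exact abs_nonneg _
        · intro ξ hξ
          exact Set.indicator_of_notMem (fun h => hk ⟨ξ, hξ, h⟩) _
    calc ∑ ζ ∈ s', |Γ.defect T n ζ|
        ≤ ∑ ζ ∈ s', (|T (g ζ) (Γ.e n)| + |∑' m, ((dat ζ).A \ Φ).indicator (Γ.mat T n) m|) := by
          refine Finset.sum_le_sum fun ζ hζ => ?_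
          rw [hTg ζ hζ]
          exact abs_sub _ _
      _ ≤ ‖T‖ + ‖T‖ := by rw [Finset.sum_add_distrib]; exact add_le_add b1 b2
  have hs : Summable fun ζ => |Γ.defect T n ζ| := summable_of_sum_le (fun _ => abs_nonneg _) key
  refine hs.countable_support.mono ?_
  rintro ζ ⟨d, hd, h⟩
  have h1 : ∃ d, Γ.D ζ = some d := ⟨d, hd⟩
  have h2 : h1.choose = d := Option.some.inj (h1.choose_spec.symm.trans hd)
  rw [Function.mem_support, defect, dif_pos h1, abs_ne_zero, sub_ne_zero]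
  subst h2
  exact h

/-- Some stage with matrix `mat T` made no choice. -/
lemma exists_none (T : C(Γ.KK, ℝ) →L[ℝ] C(Γ.KK, ℝ)) : ∃ η : ℝ, Γ.D (Γ.mat T, η) = none := by
  have h1 : (⋃ n, Γ.Exc T n).Countable := Set.countable_iUnion fun n => Γ.countable_Exc T n
  have h2 : {η : ℝ | (Γ.mat T, η) ∈ ⋃ n, Γ.Exc T n}.Countable :=
    h1.preimage (Prod.mk_right_injective _)
  obtain ⟨η, hη⟩ : ∃ η : ℝ, η ∉ {η : ℝ | (Γ.mat T, η) ∈ ⋃ n, Γ.Exc T n} := by
    by_contra h
    push Not at h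
    have h3 : {η : ℝ | (Γ.mat T, η) ∈ ⋃ n, Γ.Exc T n} = Set.univ := Set.eq_univ_of_forall h
    rw [h3] at h2
    exact Cardinal.not_countable_real h2
  refine ⟨η, ?_⟩
  rcases hD : Γ.D (Γ.mat T, η) with _ | d
  · rfl
  · exfalso
    have hc := Γ.cert _ _ hD
    obtain ⟨y, hy⟩ := Γ.cert_limit hD
    apply hc.hbad
    refine ⟨T (Γ.chi (Γ.gen_self hD)) y, ?_⟩
    have h3 := ((T (Γ.chi (Γ.gen_self hD))).continuous.tendsto y).comp hy
    refine h3.congr fun k => ?_
    by_contra h4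
    apply hη
    rw [Set.mem_ofPred_eq, Set.mem_iUnion]
    exact ⟨d.n k, d, hD, h4⟩

/-- For finitely many operators there is a branch which is good for all of them. -/
lemma exists_good (s : Finset (C(Γ.KK, ℝ) →L[ℝ] C(Γ.KK, ℝ))) :
    ∃ α : Br, ∀ T ∈ s, G1 (Γ.mat T) α ∧ G2 (Γ.mat T) α := by
  classical
  choose η hη using Γ.exists_none
  have h1 : #(⋃ T ∈ s, Γ.U (Γ.mat T, η T) : Set Br) < 𝔠 := by
    induction s using Finset.induction_on with
    | empty => simp [continuum_pos]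
    | insert T s hT ih =>
      rw [Finset.set_biUnion_insert]
      exact (Cardinal.mk_union_le _ _).trans_lt
        (Cardinal.add_lt_of_lt aleph0_le_continuum (Γ.mk_U_lt _) ih)
  have h2 : #Br = 𝔠 := by
    have : #Br = (3 : Cardinal) ^ ℵ₀ := by simp [Br]
    rw [this]
    exact_mod_cast nat_power_aleph0 (n := 3) (by norm_num)
  obtain ⟨α, hα⟩ : ∃ α : Br, α ∉ (⋃ T ∈ s, Γ.U (Γ.mat T, η T) : Set Br) := by
    by_contra h
    push Not at h
    rw [Set.eq_univ_of_forall h, Cardinal.mk_univ, h2] at h1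
    exact lt_irrefl _ h1
  refine ⟨α, fun T hT => ?_⟩
  refine Γ.good_of_none (hη T) (M := ‖T‖) (Γ.mat_row T) ?_
  intro h
  exact hα (Set.mem_biUnion (show T ∈ (s : Set _) from hT) h)

end Family

end Pool.Agent.Helper15.CK
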