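import Pool.Agent.Helper15.CK.Kernel
import Pool.Agent.Helper15.CK.Oper

set_option autoImplicit false

/-! Operators are approximated by finite propagation operators near a good branch. -/

open Filter Topology

namespace Pool.Agent.Helper15.CK

open Classical in
/-- value of a function embedded along `p ↦ p ++ a` -/
noncomputable def embv (a : W) (g : W → ℝ) (n : W) : ℝ :=
  if a <:+ n then g (n.take (n.length - a.length)) else 0

lemma embv_append (a : W) (g : W → ℝ) (p : W) : embv a g (p ++ a) = g p := by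
  rw [embv, if_pos (List.suffix_append _ _)]
  simp

lemma embv_of_not {a : W} {g : W → ℝ} {n : W} (h : ¬ a <:+ n) : embv a g n = 0 := if_neg h

lemma approx_core {t : W → W → ℝ} {α : Br} {L J k J₁ k₁ ℓ₀ : ℕ} {Φ : Finset W} {ε₁ ε₂ : ℝ}
    (g1 : ∀ n ∉ Φ, ∀ F : Finset W, (∀ m ∈ F, suf α k₁ <:+ m ∧ m ∉ Φ ∧ ¬ rel L n m) →
      ∑ m ∈ F, |t n m| ≤ ε₁)
    (g3 : ∀ n ∈ Φ, ∀ F : Finset W, (∀ m ∈ F, ℓ₀ ≤ m.length) → ∑ m ∈ F, |t n m| ≤ ε₁)
    (g2 : ∀ μ ν : W, μ.length ≤ L → ν.length ≤ L → ∀ w w' : W, suf α J₁ <:+ w → suf α J₁ <:+ w' →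
      w.take J₁ = w'.take J₁ → |t (μ ++ w) (ν ++ w) - t (μ ++ w') (ν ++ w')| ≤ ε₂)
    (hk₁ : k₁ ≤ k) (hJk : J₁ ≤ k) (hJ : J₁ ≤ J) (hℓ : ℓ₀ ≤ k) (hΦ : ∀ m ∈ Φ, m.length < k)
    (_hε₁ : 0 ≤ ε₁) (hε₂ : 0 ≤ ε₂) {M : ℝ} (hM : ∀ p q, |ker t (suf α k) L J p q| ≤ M)
    {F : Finset W} {f : V} {c : ℝ} (hfF : ∀ q, q ∉ F → f q = 0) (hfc : ∀ q, |f q| ≤ c)
    (hfn : ∀ q ∈ F, J + 2 * L ≤ q.length) (n : W) :
    |∑ q ∈ F, f q * t n (q ++ suf α k)
      - embv (suf α k) (opK (ker t (suf α k) L J) M hM L f) n| ≤ (ε₁ + cB L * ε₂) * c := by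
  classical
  set a := suf α k with ha
  have hal : a.length = k := by simp [ha]
  have hc : 0 ≤ c := (abs_nonneg _).trans (hfc [])
  have hinj : Function.Injective fun q : W => q ++ a := fun q q' h => List.append_cancel_right h
  -- bound for the part controlled by `ε₁`
  have hpart : ∀ G : Finset W, (∑ m ∈ G.image (fun q => q ++ a), |t n m| ≤ ε₁) →
      |∑ q ∈ G, f q * t n (q ++ a)| ≤ ε₁ * c := by
    intro G hG
    rw [Finset.sum_image fun x _ y _ h => hinj h] at hG
    calc |∑ q ∈ G, f q * t n (q ++ a)| ≤ ∑ q ∈ G, |f q * t n (q ++ a)| :=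
          Finset.abs_sum_le_sum_abs _ _
      _ ≤ ∑ q ∈ G, c * |t n (q ++ a)| := by
          refine Finset.sum_le_sum fun q _ => ?_
          rw [abs_mul]
          exact mul_le_mul_of_nonneg_right (hfc q) (abs_nonneg _)
      _ = c * ∑ q ∈ G, |t n (q ++ a)| := by rw [Finset.mul_sum]
      _ ≤ c * ε₁ := mul_le_mul_of_nonneg_left hG hc
      _ = ε₁ * c := mul_comm _ _
  have hcB : (0 : ℝ) ≤ cB L * ε₂ * c := mul_nonneg (mul_nonneg (Nat.cast_nonneg _) hε₂) hc
  by_cases hn : n ∈ Φ
  · have h1 : ¬ a <:+ n := by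
      intro h
      have := h.length_le
      have := hΦ n hn
      omega
    rw [embv_of_not h1, sub_zero]
    refine (hpart F (g3 n hn _ ?_)).trans ?_
    · intro m hm
      obtain ⟨q, -, rfl⟩ := Finset.mem_image.1 hm
      simp only [List.length_append]; omega
    · rw [add_mul]; linarith
  · -- split
    have hsplit : ∑ q ∈ F, f q * t n (q ++ a)
        = ∑ q ∈ F.filter (fun q => rel L n (q ++ a)), f q * t n (q ++ a)
          + ∑ q ∈ F.filter (fun q => ¬ rel L n (q ++ a)), f q * t n (q ++ a) :=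
      (Finset.sum_filter_add_sum_filter_not F _ _).symm
    have hnon : |∑ q ∈ F.filter (fun q => ¬ rel L n (q ++ a)), f q * t n (q ++ a)| ≤ ε₁ * c := by
      refine hpart _ (g1 n hn _ ?_)
      intro m hm
      obtain ⟨q, hq, rfl⟩ := Finset.mem_image.1 hm
      refine ⟨(suf_suffix_suf α hk₁).trans (List.suffix_append _ _), ?_, (Finset.mem_filter.1 hq).2⟩
      intro h
      have := hΦ _ h
      simp only [List.length_append] at this; omega
    have hmain : |∑ q ∈ F.filter (fun q => rel L n (q ++ a)), f q * t n (q ++ a)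
        - embv a (opK (ker t a L J) M hM L f) n| ≤ cB L * ε₂ * c := by
      by_cases hs : a <:+ n
      · obtain ⟨p, rfl⟩ := hs
        rw [embv_append, opK_apply]
        have e1 : F.filter (fun q => rel L (p ++ a) (q ++ a)) = F.filter (fun q => rel L p q) := by
          refine Finset.filter_congr fun q hq => rel_append_iff ?_
          have := hfn q hq
          omega
        have e2 : ∑ q ∈ ball L p, ker t a L J p q * f q
            = ∑ q ∈ F.filter (fun q => rel L p q), ker t a L J p q * f q := by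
          symm
          refine Finset.sum_subset ?_ ?_
          · intro q hq
            exact mem_ball.2 (Finset.mem_filter.1 hq).2
          · intro q hq hq'
            rw [hfF q, mul_zero]
            intro hqF
            exact hq' (Finset.mem_filter.2 ⟨hqF, mem_ball.1 hq⟩)
        rw [e1, e2, ← Finset.sum_sub_distrib]
        refine (Finset.abs_sum_le_sum_abs _ _).trans ?_
        have hterm : ∀ q ∈ F.filter (fun q => rel L p q),
            |f q * t (p ++ a) (q ++ a) - ker t a L J p q * f q| ≤ ε₂ * c := by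
          intro q hq
          obtain ⟨hqF, hrel⟩ := Finset.mem_filter.1 hq
          have hql := hfn q hqF
          obtain ⟨μ, ν, w, hμ, hν, rfl, rfl, hw⟩ := rel_canonical hrel
          have hmax : J + L ≤ max (μ ++ w).length (ν ++ w).length := by
            have := le_max_right (μ ++ w).length (ν ++ w).length
            omega
          rw [ker_of_canonical t a hμ hν hw hmax]
          have hJw : J ≤ w.length := by omega
          have h2 := g2 μ ν hμ hν (w ++ a) (w.take J ++ a)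
            ((suf_suffix_suf α hJk).trans (List.suffix_append _ _))
            ((suf_suffix_suf α hJk).trans (List.suffix_append _ _))
            (by
              rw [List.take_append_of_le_length (by omega), List.take_append_of_le_length (by
                rw [List.length_take]; omega), List.take_take, min_eq_left hJ])
          have h3 : f (ν ++ w) * t (μ ++ w ++ a) (ν ++ w ++ a)
              - t (μ ++ (w.take J ++ a)) (ν ++ (w.take J ++ a)) * f (ν ++ w)
              = (t (μ ++ (w ++ a)) (ν ++ (w ++ a)) - t (μ ++ (w.take J ++ a)) (ν ++ (w.take J ++ a)))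
                * f (ν ++ w) := by
            rw [List.append_assoc, List.append_assoc]; ring
          rw [h3, abs_mul]
          exact mul_le_mul h2 (hfc _) (abs_nonneg _) hε₂
        refine (Finset.sum_le_sum hterm).trans ?_
        rw [Finset.sum_const, nsmul_eq_mul]
        have hcard : ((F.filter (fun q => rel L p q)).card : ℝ) ≤ cB L := by
          have : F.filter (fun q => rel L p q) ⊆ ball L p := fun q hq =>
            mem_ball.2 (Finset.mem_filter.1 hq).2
          exact_mod_cast (Finset.card_le_card this).trans (card_ball_le L p)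
        calc ((F.filter (fun q => rel L p q)).card : ℝ) * (ε₂ * c) ≤ cB L * (ε₂ * c) :=
              mul_le_mul_of_nonneg_right hcard (mul_nonneg hε₂ hc)
          _ = cB L * ε₂ * c := by ring
      · rw [embv_of_not hs, sub_zero]
        have : F.filter (fun q => rel L n (q ++ a)) = ∅ := by
          rw [Finset.filter_eq_empty_iff]
          intro q hq h
          have := hfn q hq
          obtain ⟨p, rfl, -⟩ := rel_cancel (by omega) h
          exact hs (List.suffix_append _ _)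
        rw [this, Finset.sum_empty, abs_zero]
        exact hcB
    rw [hsplit]
    change |_ + _ - embv a (opK (ker t a L J) M hM L f) n| ≤ _
    rw [add_sub_right_comm]
    calc _ ≤ _ := abs_add_le _ _
      _ ≤ cB L * ε₂ * c + ε₁ * c := add_le_add hmain hnon
      _ = _ := by ring

/-- All the constants for a finite set of matrices. -/
lemma exists_params {α : Br} (s : Finset (W → W → ℝ)) (hs : ∀ t ∈ s, G1 t α ∧ G2 t α)
    (hrow : ∀ t ∈ s, ∃ M : ℝ, ∀ n, ∀ F : Finset W, ∑ m ∈ F, |t n m| ≤ M) {ε : ℝ} (hε : 0 < ε) :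
    ∃ L J k : ℕ, ∀ t ∈ s, ∀ (M : ℝ) (hM : ∀ p q, |ker t (suf α k) L J p q| ≤ M)
      (F : Finset W) (f : V) (c : ℝ), (∀ q, q ∉ F → f q = 0) → (∀ q, |f q| ≤ c) →
      (∀ q ∈ F, J + 2 * L ≤ q.length) → ∀ n,
      |∑ q ∈ F, f q * t n (q ++ suf α k)
        - embv (suf α k) (opK (ker t (suf α k) L J) M hM L f) n| ≤ ε * c := by
  classical
  have hε2 : 0 < ε / 2 := half_pos hε
  -- common `L`, `Φ`
  have hG1 : ∀ t ∈ s, ∃ L : ℕ, ∃ Φ : Finset W, ∀ n ∉ Φ, ∀ F : Finset W,
      (∀ m ∈ F, suf α L <:+ m ∧ m ∉ Φ ∧ ¬ rel L n m) → ∑ m ∈ F, |t n m| ≤ ε / 2 :=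
    fun t ht => (hs t ht).1 _ hε2
  choose! Lf Φf hLΦ using hG1
  let L := s.sup Lf
  have hL : ∀ t ∈ s, Lf t ≤ L := fun t ht => Finset.le_sup ht
  let ε₂ : ℝ := ε / 2 / (cB L + 1)
  have hε₂ : 0 < ε₂ := by positivity
  have hG2 : ∀ t ∈ s, ∃ J₁ : ℕ, ∀ μ ν : W, μ.length ≤ L → ν.length ≤ L → ∀ w w' : W,
      suf α J₁ <:+ w → suf α J₁ <:+ w' → w.take J₁ = w'.take J₁ →
      |t (μ ++ w) (ν ++ w) - t (μ ++ w') (ν ++ w')| ≤ ε₂ := by
    intro t ht
    choose Jf hJf using fun μ ν => (hs t ht).2 μ ν ε₂ hε₂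
    refine ⟨((wordsLE L) ×ˢ (wordsLE L)).sup fun x => Jf x.1 x.2, ?_⟩
    intro μ ν hμ hν w w' h1 h2 h3
    have hle : Jf μ ν ≤ ((wordsLE L) ×ˢ (wordsLE L)).sup fun x => Jf x.1 x.2 :=
      Finset.le_sup (f := fun x : W × W => Jf x.1 x.2) (b := (μ, ν)) (by simp [hμ, hν])
    refine hJf μ ν w w' (suffix_mono hle h1) (suffix_mono hle h2) ?_
    have := congrArg (List.take (Jf μ ν)) h3
    rwa [List.take_take, List.take_take, min_eq_left hle] at this
  choose! J₁f hJ₁f using hG2
  let J := s.sup J₁f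
  have hJ : ∀ t ∈ s, J₁f t ≤ J := fun t ht => Finset.le_sup ht
  -- tails
  have hG3 : ∀ t ∈ s, ∃ ℓ₀ : ℕ, ∀ n ∈ Φf t, ∀ F : Finset W, (∀ m ∈ F, ℓ₀ ≤ m.length) →
      ∑ m ∈ F, |t n m| ≤ ε / 2 := by
    intro t ht
    obtain ⟨M, hM⟩ := hrow t ht
    choose ℓf hℓf using fun n => row_tail (hM n) hε2
    refine ⟨(Φf t).sup ℓf, fun n hn F hF => hℓf n F fun m hm => ?_⟩
    exact (Finset.le_sup (f := ℓf) hn).trans (hF m hm)
  choose! ℓf hℓf using hG3
  have hG4 : ∀ t : W → W → ℝ, ∃ b : ℕ, ∀ m ∈ Φf t, m.length ≤ b := fun t =>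
    exists_length_bound_finset _
  choose bf hbf using hG4
  let k := L + J + s.sup ℓf + s.sup bf + 1
  refine ⟨L, J, k, ?_⟩
  intro t ht M hM F f c h1 h2 h3 n
  have hc : 0 ≤ c := (abs_nonneg _).trans (h2 [])
  have hb : bf t ≤ s.sup bf := Finset.le_sup (f := bf) ht
  have hℓ : ℓf t ≤ s.sup ℓf := Finset.le_sup (f := ℓf) ht
  have hLt := hL t ht
  have hJt := hJ t ht
  refine (approx_core (J₁ := J₁f t) (k₁ := Lf t) (ℓ₀ := ℓf t) (Φ := Φf t) (ε₁ := ε / 2) (ε₂ := ε₂)
    ?_ (hℓf t ht) (hJ₁f t ht) ?_ ?_ hJt ?_ ?_ hε2.le hε₂.le hM h1 h2 h3 n).trans ?_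
  · intro n hn F hF
    refine hLΦ t ht n hn F fun m hm => ?_
    obtain ⟨h4, h5, h6⟩ := hF m hm
    exact ⟨h4, h5, fun h => h6 (h.mono hLt)⟩
  · simp only [k]; omega
  · simp only [k]; omega
  · simp only [k]; omega
  · intro m hm
    have := hbf t m hm
    simp only [k]; omega
  · refine mul_le_mul_of_nonneg_right ?_ hc
    have : (cB L : ℝ) * ε₂ ≤ ε / 2 := by
      simp only [ε₂]
      rw [mul_div_assoc', div_le_iff₀ (by positivity)]
      nlinarith [hε2]
    linarith

end Pool.Agent.Helper15.CK
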