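import Pool.Agent.Helper15.CK.VDef

set_option autoImplicit false

/-! Finite propagation operators on bounded functions. -/

namespace Pool.Agent.Helper15.CK

/-! ### Related words -/

lemma rel_append {L : ℕ} {p q : W} (h : rel L p q) (a : W) : rel L (p ++ a) (q ++ a) := by
  obtain ⟨μ, ν, w, h1, h2, rfl, rfl⟩ := h
  exact ⟨μ, ν, w ++ a, h1, h2, by simp, by simp⟩

lemma rel_cancel {L : ℕ} {n q a : W} (hq : L ≤ q.length) (h : rel L n (q ++ a)) :
    ∃ p, n = p ++ a ∧ rel L p q := by
  obtain ⟨μ, ν, w, h1, h2, rfl, h3⟩ := h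
  rcases List.append_eq_append_iff.1 h3 with ⟨b, h4, h5⟩ | ⟨c, h4, h5⟩
  · -- ν = q ++ b
    have : b = [] := by
      have := congrArg List.length h4
      simp only [List.length_append] at this
      exact List.length_eq_zero_iff.1 (by omega)
    subst this
    simp only [List.append_nil, List.nil_append] at h4 h5
    subst h4 h5
    exact ⟨μ, rfl, μ, ν, [], h1, h2, by simp, by simp⟩
  · subst h4 h5
    exact ⟨μ ++ c, by simp, μ, ν, c, h1, h2, rfl, rfl⟩

lemma rel_append_iff {L : ℕ} {p q a : W} (hq : L ≤ q.length) :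
    rel L (p ++ a) (q ++ a) ↔ rel L p q := by
  constructor
  · intro h
    obtain ⟨p', h1, h2⟩ := rel_cancel hq h
    rwa [List.append_cancel_right h1]
  · intro h; exact rel_append h a

lemma rel_canonical {L : ℕ} {p q : W} (h : rel L p q) :
    ∃ μ ν w : W, μ.length ≤ L ∧ ν.length ≤ L ∧ p = μ ++ w ∧ q = ν ++ w ∧
      w.length = max p.length q.length - L := by
  obtain ⟨μ, ν, w, h1, h2, rfl, rfl⟩ := h
  simp only [List.length_append]
  set ℓ := max (μ.length + w.length) (ν.length + w.length) - L with hℓ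
  have hℓw : ℓ ≤ w.length := by omega
  refine ⟨μ ++ w.take (w.length - ℓ), ν ++ w.take (w.length - ℓ), w.drop (w.length - ℓ),
    ?_, ?_, by simp, by simp, ?_⟩
  · simp only [List.length_append, List.length_take]; omega
  · simp only [List.length_append, List.length_take]; omega
  · simp only [List.length_drop]; omega

/-! ### The truncated kernel -/

/-- the common length to keep -/
def cl (L : ℕ) (p q : W) : ℕ := max p.length q.length - L

open Classical in
/-- the truncated kernel: coefficients depend only on `J` letters of the common part -/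
noncomputable def ker (t : W → W → ℝ) (a : W) (L J : ℕ) (p q : W) : ℝ :=
  if rel L p q ∧ J + L ≤ max p.length q.length then
    t (p.take (p.length - cl L p q + J) ++ a) (q.take (q.length - cl L p q + J) ++ a)
  else 0

lemma ker_of_canonical (t : W → W → ℝ) (a : W) {L J : ℕ} {μ ν w : W} (hμ : μ.length ≤ L)
    (hν : ν.length ≤ L) (hw : w.length = max (μ ++ w).length (ν ++ w).length - L)
    (hJ : J + L ≤ max (μ ++ w).length (ν ++ w).length) :
    ker t a L J (μ ++ w) (ν ++ w) = t (μ ++ (w.take J ++ a)) (ν ++ (w.take J ++ a)) := by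
  have h1 : (μ ++ w).length - cl L (μ ++ w) (ν ++ w) + J = μ.length + J := by
    rw [cl, ← hw, List.length_append]; omega
  have h2 : (ν ++ w).length - cl L (μ ++ w) (ν ++ w) + J = ν.length + J := by
    rw [cl, ← hw, List.length_append]; omega
  rw [ker, if_pos ⟨⟨μ, ν, w, hμ, hν, rfl, rfl⟩, hJ⟩, h1, h2]
  have e1 : (μ ++ w).take (μ.length + J) = μ ++ w.take J := by
    rw [List.take_append, List.take_of_length_le (by omega)]; congr 2; omega
  have e2 : (ν ++ w).take (ν.length + J) = ν ++ w.take J := by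
    rw [List.take_append, List.take_of_length_le (by omega)]; congr 2; omega
  rw [e1, e2, List.append_assoc, List.append_assoc]

lemma abs_ker_le {t : W → W → ℝ} {M : ℝ} (ht : ∀ n m, |t n m| ≤ M) (a : W) (L J : ℕ) (p q : W) :
    |ker t a L J p q| ≤ M := by
  rw [ker]
  split_ifs
  · exact ht _ _
  · rw [abs_zero]; exact (abs_nonneg _).trans (ht [] [])

lemma ker_concat (t : W → W → ℝ) (a : W) {L J : ℕ} {p q : W} (j : Fin 3)
    (hq : J + 2 * L ≤ q.length) :
    ker t a L J (p ++ [j]) (q ++ [j]) = ker t a L J p q := by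
  by_cases h : rel L p q
  · have h' := rel_append h [j]
    have hl := h.symm.length_le
    have hl' := h.length_le
    have hmax : J + L ≤ max p.length q.length := by omega
    have hmax' : J + L ≤ max (p ++ [j]).length (q ++ [j]).length := by
      simp only [List.length_append, List.length_singleton]; omega
    rw [ker, ker, if_pos ⟨h', hmax'⟩, if_pos ⟨h, hmax⟩]
    have e1 : (p ++ [j]).length - cl L (p ++ [j]) (q ++ [j]) + J = p.length - cl L p q + J := by
      simp only [cl, List.length_append, List.length_singleton]; omega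
    have e2 : (q ++ [j]).length - cl L (p ++ [j]) (q ++ [j]) + J = q.length - cl L p q + J := by
      simp only [cl, List.length_append, List.length_singleton]; omega
    rw [e1, e2, List.take_append_of_le_length, List.take_append_of_le_length]
    · simp only [cl]; omega
    · simp only [cl]; omega
  · have h' : ¬ rel L (p ++ [j]) (q ++ [j]) := fun h' => h ((rel_append_iff (by omega)).1 h')
    rw [ker, ker, if_neg (fun h0 => h' h0.1), if_neg (fun h0 => h h0.1)]

/-! ### The operator -/

/-- bounded functions from pointwise bounds -/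
noncomputable def mkV (f : W → ℝ) (c : ℝ) (h : ∀ w, |f w| ≤ c) : V :=
  ⟨f, memℓp_infty ⟨c, by rintro _ ⟨w, rfl⟩; exact h w⟩⟩

@[simp] lemma mkV_apply (f : W → ℝ) (c : ℝ) (h : ∀ w, |f w| ≤ c) (w : W) : mkV f c h w = f w := rfl

lemma abs_apply_le (f : V) (w : W) : |f w| ≤ ‖f‖ :=
  lp.norm_apply_le_norm ENNReal.top_ne_zero f w

lemma norm_le_V {f : V} {c : ℝ} (hc : 0 ≤ c) (h : ∀ w, |f w| ≤ c) : ‖f‖ ≤ c :=
  lp.norm_le_of_forall_le hc h

lemma sum_ball_le {κ : W → W → ℝ} {M : ℝ} (hκ : ∀ p q, |κ p q| ≤ M) (L : ℕ) (f : V) (p : W) :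
    |∑ q ∈ ball L p, κ p q * f q| ≤ cB L * M * ‖f‖ := by
  have hM : 0 ≤ M := (abs_nonneg _).trans (hκ [] [])
  calc |∑ q ∈ ball L p, κ p q * f q| ≤ ∑ q ∈ ball L p, |κ p q * f q| :=
        Finset.abs_sum_le_sum_abs _ _
    _ ≤ ∑ q ∈ ball L p, M * ‖f‖ := by
        refine Finset.sum_le_sum fun q _ => ?_
        rw [abs_mul]
        exact mul_le_mul (hκ p q) (abs_apply_le f q) (abs_nonneg _) hM
    _ = (ball L p).card * (M * ‖f‖) := by rw [Finset.sum_const, nsmul_eq_mul]
    _ ≤ cB L * (M * ‖f‖) := by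
        refine mul_le_mul_of_nonneg_right ?_ (mul_nonneg hM (norm_nonneg _))
        exact_mod_cast card_ball_le L p
    _ = _ := by ring

/-- the operator with kernel `κ` and propagation `L` -/
noncomputable def opK (κ : W → W → ℝ) (M : ℝ) (hκ : ∀ p q, |κ p q| ≤ M) (L : ℕ) : V →L[ℝ] V :=
  LinearMap.mkContinuous
    { toFun := fun f => mkV (fun p => ∑ q ∈ ball L p, κ p q * f q) (cB L * M * ‖f‖)
        (sum_ball_le hκ L f)
      map_add' := by
        intro f g; ext p
        change ∑ q ∈ ball L p, κ p q * (f q + g q)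
          = ∑ q ∈ ball L p, κ p q * f q + ∑ q ∈ ball L p, κ p q * g q
        rw [← Finset.sum_add_distrib]
        exact Finset.sum_congr rfl fun q _ => by ring
      map_smul' := by
        intro c f; ext p
        change ∑ q ∈ ball L p, κ p q * (c * f q) = c * ∑ q ∈ ball L p, κ p q * f q
        rw [Finset.mul_sum]
        exact Finset.sum_congr rfl fun q _ => by ring }
    (cB L * M)
    (fun f => norm_le_V (mul_nonneg (mul_nonneg (Nat.cast_nonneg _)
      ((abs_nonneg _).trans (hκ [] []))) (norm_nonneg _)) (sum_ball_le hκ L f))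

lemma opK_apply (κ : W → W → ℝ) (M : ℝ) (hκ : ∀ p q, |κ p q| ≤ M) (L : ℕ) (f : V) (p : W) :
    opK κ M hκ L f p = ∑ q ∈ ball L p, κ p q * f q := rfl

/-- propagation: the output vanishes on short words -/
lemma opK_mem_Vge {κ : W → W → ℝ} {M : ℝ} {hκ : ∀ p q, |κ p q| ≤ M} {L n : ℕ} {f : V}
    (hf : f ∈ Vge (n + L)) : opK κ M hκ L f ∈ Vge n := by
  intro p hp
  rw [opK_apply]
  refine Finset.sum_eq_zero fun q hq => ?_
  have := (mem_ball.1 hq).length_le
  rw [hf q (by omega), mul_zero]

/-- locality -/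
lemma opK_congr {κ : W → W → ℝ} {M : ℝ} {hκ : ∀ p q, |κ p q| ≤ M} {L : ℕ} {f g : V} {p : W}
    (h : ∀ q ∈ ball L p, f q = g q) : opK κ M hκ L f p = opK κ M hκ L g p := by
  rw [opK_apply, opK_apply]
  exact Finset.sum_congr rfl fun q hq => by rw [h q hq]

/-- invariance under appending a letter -/
lemma opK_R {t : W → W → ℝ} {a : W} {L J : ℕ} {M : ℝ}
    (hκ : ∀ p q, |ker t a L J p q| ≤ M) {n : ℕ} (hn : J + 2 * L ≤ n) {f : V} (hf : f ∈ Vge n)
    (j : Fin 3) :
    opK (ker t a L J) M hκ L (R j f) = R j (opK (ker t a L J) M hκ L f) := by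
  ext p
  rw [opK_apply, R_apply]
  have hR : ∀ q, R j f q ≠ 0 → ∃ q', q = q' ++ [j] ∧ f q' ≠ 0 := by
    intro q hq
    rw [R_apply] at hq
    split_ifs at hq with h
    · refine ⟨q.dropLast, ?_, hq⟩
      exact (List.dropLast_append_getLast? j h).symm
    · exact absurd rfl hq
  have hlen : ∀ q', f q' ≠ 0 → n ≤ q'.length := by
    intro q' hq'
    by_contra h
    exact hq' (hf q' (not_le.1 h))
  by_cases hp : p.getLast? = some j
  · rw [if_pos hp]
    obtain ⟨p', rfl⟩ : ∃ p', p = p' ++ [j] := ⟨_, (List.dropLast_append_getLast? j hp).symm⟩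
    simp only [List.dropLast_concat]
    rw [opK_apply]
    symm
    refine Finset.sum_bij_ne_zero (fun q' _ _ => q' ++ [j]) ?_ ?_ ?_ ?_
    · intro q' hq' _
      exact mem_ball.2 (rel_append (mem_ball.1 hq') [j])
    · intro q₁ _ _ q₂ _ _ h
      exact List.append_cancel_right h
    · intro q hq hne
      obtain ⟨q', rfl, hq'⟩ := hR q (right_ne_zero_of_mul hne)
      have hl := hlen q' hq'
      have hrel : rel L p' q' := (rel_append_iff (by omega)).1 (mem_ball.1 hq)
      refine ⟨q', mem_ball.2 hrel, ?_, rfl⟩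
      rw [ker_concat _ _ _ (by omega), R_apply_concat] at hne
      exact hne
    · intro q' hq' hne
      have hl := hlen q' (right_ne_zero_of_mul hne)
      rw [R_apply_concat, ker_concat _ _ _ (by omega)]
  · rw [if_neg hp]
    refine Finset.sum_eq_zero fun q hq => ?_
    by_contra hne
    obtain ⟨q', rfl, hq'⟩ := hR q (right_ne_zero_of_mul hne)
    have hl := hlen q' hq'
    obtain ⟨p', rfl, -⟩ := rel_cancel (a := [j]) (by omega) (mem_ball.1 hq)
    simp at hp

end Pool.Agent.Helper15.CK
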