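import Pool.Agent.Helper15.CK.Sparse

set_option autoImplicit false

/-! Certificates and the two kill lemmas. -/

open Filter Topology

namespace Pool.Agent.Helper15.CK

/-- The letters of `w` read from the end. -/
def rv (w : W) : Br := fun i => w.reverse.getD i 0

lemma suf_suffix_of_rv {β : Br} {w : W} {j : ℕ} (hj : j ≤ w.length) (h : ∀ i < j, rv w i = β i) :
    suf β j <:+ w := by
  induction j with
  | zero => simp
  | succ j ih =>
    obtain ⟨p, hp⟩ := ih (by omega) (fun i hi => h i (by omega))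
    have hlen : p.length + j = w.length := by rw [← hp]; simp
    rcases List.eq_nil_or_concat p with h0 | ⟨p', c, h0⟩
    · subst h0; simp at hlen; omega
    · have hc : c = β j := by
        rw [← h j (by omega), rv, ← hp, h0]
        simp
      refine ⟨p', ?_⟩
      rw [← hp, h0, hc]; simp

/-- Approximate finite propagation near the branch `α`. -/
def G1 (t : W → W → ℝ) (α : Br) : Prop :=
  ∀ δ > 0, ∃ L : ℕ, ∃ Φ : Finset W, ∀ n ∉ Φ, ∀ F : Finset W,
    (∀ m ∈ F, suf α L <:+ m ∧ m ∉ Φ ∧ ¬ rel L n m) → ∑ m ∈ F, |t n m| ≤ δ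

/-- The coefficients depend asymptotically only on a prefix, near the branch `α`. -/
def G2 (t : W → W → ℝ) (α : Br) : Prop :=
  ∀ μ ν : W, ∀ δ > 0, ∃ J : ℕ, ∀ w w' : W, suf α J <:+ w → suf α J <:+ w' →
    w.take J = w'.take J → |t (μ ++ w) (ν ++ w) - t (μ ++ w') (ν ++ w')| ≤ δ

/-- The data chosen at a stage of the recursion. -/
structure Data where
  α : Br
  β : Br
  A : Set W
  n : ℕ → W

/-- `d` shows that no bounded operator with matrix `t` can exist. -/
structure IsCert (t : W → W → ℝ) (U : Set Br) (F : Set (Br × Set W)) (d : Data) : Prop where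
  hα : d.α ∉ U
  hA : Conv d.A d.α
  hlen : Tendsto (fun k => (d.n k).length) atTop atTop
  hβ : ∀ j, ∀ᶠ k in atTop, suf d.β j <:+ d.n k
  hcyl : ∀ μ : W, Dec fun k => μ <+: d.n k
  hself : ∀ μ ν : W, Dec fun k => d.n k ∈ sh μ ν d.A
  hF : ∀ p ∈ F, ∀ μ ν : W, Dec fun k => d.n k ∈ sh μ ν p.2
  hbad : ¬ ∃ l, Tendsto (fun k => ∑' m, d.A.indicator (t (d.n k)) m) atTop (𝓝 l)

lemma exists_half {r : W → ℝ} (F : Finset W) : ∃ F' ⊆ F, ∑ m ∈ F, |r m| ≤ 2 * |∑ m ∈ F', r m| := by
  classical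
  have h1 : ∑ m ∈ F, |r m| = ∑ m ∈ F.filter (fun m => 0 ≤ r m), r m
      + ∑ m ∈ F.filter (fun m => ¬ 0 ≤ r m), (- r m) := by
    rw [← Finset.sum_filter_add_sum_filter_not F (fun m => 0 ≤ r m)]
    congr 1
    · refine Finset.sum_congr rfl fun m hm => abs_of_nonneg (Finset.mem_filter.1 hm).2
    · refine Finset.sum_congr rfl fun m hm => abs_of_neg (not_le.1 (Finset.mem_filter.1 hm).2)
  rw [Finset.sum_neg_distrib] at h1
  rcases le_total (∑ m ∈ F, |r m|) (2 * |∑ m ∈ F.filter (fun m => 0 ≤ r m), r m|) with h | h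
  · exact ⟨_, Finset.filter_subset _ _, h⟩
  · refine ⟨F.filter (fun m => ¬ 0 ≤ r m), Finset.filter_subset _ _, ?_⟩
    have h2 := le_abs_self (∑ m ∈ F.filter (fun m => 0 ≤ r m), r m)
    have h3 := neg_le_abs (∑ m ∈ F.filter (fun m => ¬ 0 ≤ r m), r m)
    linarith

lemma abs_le_of_row {t : W → W → ℝ} {M : ℝ} (hrow : ∀ n, ∀ F : Finset W, ∑ m ∈ F, |t n m| ≤ M)
    (n m : W) : |t n m| ≤ M := by
  simpa using hrow n {m}

/-- A word far out with prescribed eventual suffixes: extraction of the suffix limit. -/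
lemma exists_suffix_limit (x : ℕ → W) (hx : Tendsto (fun k => (x k).length) atTop atTop) :
    ∃ β : Br, ∃ φ : ℕ → ℕ, StrictMono φ ∧ ∀ j, ∀ᶠ k in atTop, suf β j <:+ x (φ k) := by
  obtain ⟨β, φ, hφ, hlim⟩ := CompactSpace.tendsto_subseq (fun k => rv (x k))
  refine ⟨β, φ, hφ, fun j => ?_⟩
  have h1 : ∀ᶠ k in atTop, ∀ i ∈ Finset.range j, rv (x (φ k)) i = β i := by
    rw [Filter.eventually_all_finset]
    intro i _
    have := (tendsto_pi_nhds.1 hlim) i
    rw [nhds_discrete, tendsto_pure] at this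
    exact this
  filter_upwards [h1, (hx.comp hφ.tendsto_atTop).eventually_ge_atTop j] with k h1 h2
  exact suf_suffix_of_rv h2 fun i hi => h1 i (by simpa using hi)

/-- Comparison of the sum over `A` with the sum over a finite piece of `A`. -/
lemma indicator_tsum_near {r : W → ℝ} {M : ℝ} (hr : ∀ F : Finset W, ∑ m ∈ F, |r m| ≤ M)
    {A : Set W} {H : Finset W} {c : ℝ} (hH : (H : Set W) ⊆ A)
    (hc : ∀ F : Finset W, (∀ m ∈ F, m ∈ A ∧ m ∉ H) → ∑ m ∈ F, |r m| ≤ c) :
    |∑' m, A.indicator r m - ∑ m ∈ H, r m| ≤ c := by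
  classical
  have hs : Summable fun m => |r m| := summable_of_sum_le (fun _ => abs_nonneg _) hr
  have hs' : Summable r := hs.of_abs
  have e1 : ∑ m ∈ H, r m = ∑' m, (H : Set W).indicator r m := by
    rw [← tsum_subtype (H : Set W) r, Finset.tsum_subtype' H r]
  have e2 : ∑' m, A.indicator r m - ∑' m, (H : Set W).indicator r m
      = ∑' m, (A \ H).indicator r m := by
    rw [← (hs'.indicator A).tsum_sub (hs'.indicator _)]
    refine tsum_congr fun m => ?_
    by_cases h1 : m ∈ (H : Set W)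
    · simp [h1, hH h1]
    · by_cases h2 : m ∈ A <;> simp_all
  rw [e1, e2]
  have hsi : Summable fun m => |(A \ H).indicator r m| := (hs'.indicator _).abs
  refine (norm_tsum_le_tsum_norm (f := (A \ H).indicator r) hsi).trans ?_
  refine hsi.tsum_le_of_sum_le fun F => ?_
  have : ∑ m ∈ F, |(A \ H).indicator r m| = ∑ m ∈ F.filter (fun m => m ∈ A ∧ m ∉ H), |r m| := by
    rw [Finset.sum_filter]
    refine Finset.sum_congr rfl fun m _ => ?_
    by_cases h : m ∈ A ∧ m ∉ H
    · rw [if_pos h, Set.indicator_of_mem]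
      exact ⟨h.1, by simpa using h.2⟩
    · rw [if_neg h, Set.indicator_of_notMem, abs_zero]
      intro h'
      exact h ⟨h'.1, by simpa using h'.2⟩
  rw [this]
  exact hc _ fun m hm => (Finset.mem_filter.1 hm).2

/-- Column limits along a subsequence give smallness of earlier pieces. -/
lemma earlier_small {t : W → W → ℝ} {M : ℝ}
    (hrow : ∀ n, ∀ F : Finset W, ∑ m ∈ F, |t n m| ≤ M) {y : ℕ → W} {Fs : ℕ → Finset W}
    (hlim : ∀ m, ∃ l, Tendsto (fun k => t (y k) m) atTop (𝓝 l))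
    (h3 : ∀ ℓ : ℕ, ∀ᶠ b in atTop, ∀ m ∈ Fs b, ℓ ≤ m.length) :
    ∀ ε > 0, ∀ᶠ a in atTop, ∀ᶠ b in atTop, ∑ m ∈ Fs a, |t (y b) m| ≤ ε := by
  intro ε hε
  choose τ hτ using hlim
  have hτM : ∀ F : Finset W, ∑ m ∈ F, |τ m| ≤ M := by
    intro F
    have : Tendsto (fun k => ∑ m ∈ F, |t (y k) m|) atTop (𝓝 (∑ m ∈ F, |τ m|)) :=
      tendsto_finsetSum _ fun m _ => (hτ m).abs
    exact le_of_tendsto' this fun k => hrow _ _
  obtain ⟨ℓ, hℓ⟩ := row_tail hτM (half_pos hε)
  filter_upwards [h3 ℓ] with a ha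
  have h4 : ∑ m ∈ Fs a, |τ m| < ε := (hℓ _ ha).trans_lt (half_lt_self hε)
  have : Tendsto (fun k => ∑ m ∈ Fs a, |t (y k) m|) atTop (𝓝 (∑ m ∈ Fs a, |τ m|)) :=
    tendsto_finsetSum _ fun m _ => (hτ m).abs
  filter_upwards [this.eventually_lt_const h4] with b hb using hb.le

/-- First kill lemma: if the matrix is not approximately local near `α`, there is a certificate. -/
lemma kill1 {t : W → W → ℝ} {M : ℝ} (hrow : ∀ n, ∀ F : Finset W, ∑ m ∈ F, |t n m| ≤ M)
    {U : Set Br} {F : Set (Br × Set W)} (hF : ∀ p ∈ F, Conv p.2 p.1)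
    (hFi : ∀ p ∈ F, ∀ q ∈ F, p.1 = q.1 → p = q) {α : Br} (hα : α ∉ U)
    (hG : ¬ G1 t α) : ∃ d, IsCert t U F d := by
  classical
  unfold G1 at hG
  push Not at hG
  obtain ⟨δ, hδ, hG⟩ := hG
  have key : ∀ L : ℕ, ∃ x : W, ∃ S : Finset W, L < x.length ∧
      (∀ m ∈ S, suf α L <:+ m ∧ L < m.length ∧ ¬ rel L x m) ∧ δ / 2 < |∑ m ∈ S, t x m| := by
    intro L
    obtain ⟨n, hn, S, hS, hlt⟩ := hG L (wordsLE L)
    obtain ⟨S', hS', hle⟩ := exists_half (r := t n) S
    refine ⟨n, S', by simpa using hn, fun m hm => ?_, by linarith⟩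
    obtain ⟨h1, h2, h3⟩ := hS m (hS' hm)
    exact ⟨h1, by simpa using h2, h3⟩
  choose x S hx hS hsum using key
  have hxl : Tendsto (fun k => (x k).length) atTop atTop :=
    tendsto_atTop_mono (fun k => (hx k).le) tendsto_id
  obtain ⟨β, φ₁, hφ₁, hβ⟩ := exists_suffix_limit x hxl
  -- the set of the family that converges to `β`
  let B₀ : Set W := {m | ∃ p ∈ F, p.1 = β ∧ m ∈ p.2}
  have hB₀ : ∀ p ∈ F, p.1 = β → p.2 = B₀ := by
    intro p hp hpβ
    ext m
    constructor
    · intro hm; exact ⟨p, hp, hpβ, hm⟩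
    · rintro ⟨q, hq, hqβ, hm⟩
      rwa [hFi p hp q hq (hpβ.trans hqβ.symm)]
  obtain ⟨φ₂, hφ₂, hdec, hlim⟩ := exists_subseq (ι := W ⊕ (W × W)) (κ := W)
    (fun i k => Sum.elim (fun μ => μ <+: x (φ₁ k)) (fun q => x (φ₁ k) ∈ sh q.1 q.2 B₀) i)
    (fun m k => t (x (φ₁ k)) m) (fun m => ⟨M, fun k => abs_le_of_row hrow _ _⟩)
  let φ : ℕ → ℕ := fun k => φ₁ (φ₂ k)
  have hφ : StrictMono φ := hφ₁.comp hφ₂
  have hφge : ∀ k, k ≤ φ k := hφ.id_le
  let y : ℕ → W := fun k => x (φ k)
  let H : ℕ → Finset W := fun k => S (φ k)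
  have hyl : Tendsto (fun k => (y k).length) atTop atTop := hxl.comp hφ.tendsto_atTop
  have hHl : ∀ ℓ : ℕ, ∀ᶠ b in atTop, ∀ m ∈ H b, ℓ ≤ m.length := by
    intro ℓ
    filter_upwards [eventually_ge_atTop ℓ] with b hb m hm
    have := (hS (φ b) m hm).2.1
    have := hφge b
    omega
  obtain ⟨s, hs, hc1, hc2, hc3⟩ := sparse hrow (fun _ => y) (fun _ => H)
    (fun _ _ => earlier_small hrow hlim hHl) (fun _ => hyl) (fun _ => hHl)
    (δ := δ / 8) (by positivity)
  let A : Set W := {m | ∃ j : ℕ, j.bodd = false ∧ m ∈ H (s j)}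
  let z : ℕ → W := fun k => y (s k)
  have hsge : ∀ k, k ≤ s k := hs.id_le
  have hnotrel : ∀ k j, ∀ m ∈ H (s j), ¬ rel k (z k) m := by
    intro k j m hm hrel
    rcases eq_or_ne j k with rfl | hjk
    · exact (hS (φ (s j)) m hm).2.2 (hrel.mono ((hsge j).trans (hφge _)))
    · exact hc2 k j hjk m hm (hrel.mono (le_max_right _ _))
  have hzl : Tendsto (fun k => (z k).length) atTop atTop := hyl.comp hs.tendsto_atTop
  have hzβ : ∀ j, ∀ᶠ k in atTop, suf β j <:+ z k := fun j =>
    (hφ₂.comp hs).tendsto_atTop.eventually (hβ j)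
  have hconvA : Conv A α := by
    intro k
    have : {m ∈ A | ¬ suf α k <:+ m} ⊆ ⋃ j ∈ Finset.range k, (H (s j) : Set W) := by
      rintro m ⟨⟨j, -, hj⟩, hm⟩
      rw [Set.mem_iUnion₂]
      refine ⟨j, ?_, hj⟩
      by_contra hjk
      apply hm
      have h1 := (hS (φ (s j)) m hj).1
      have h2 : k ≤ φ (s j) := by
        have := hsge j
        have := hφge (s j)
        simp only [Finset.mem_range, not_lt] at hjk
        omega
      exact suffix_mono h2 h1
    exact (Set.Finite.biUnion (Finset.finite_toSet _) fun j _ => Finset.finite_toSet _).subset this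
  have hcomp : ∀ k, |∑' m, A.indicator (t (z k)) m
      - (if k.bodd = false then ∑ m ∈ H (s k), t (z k) m else 0)| ≤ δ / 8 := by
    intro k
    by_cases hk : k.bodd = false
    · rw [if_pos hk]
      refine indicator_tsum_near (hrow _) (fun m hm => ⟨k, hk, hm⟩) fun F' hF' => ?_
      refine hc1 k F' fun m hm => ?_
      obtain ⟨⟨j, hj, hmj⟩, hmk⟩ := hF' m hm
      exact ⟨j, fun h => hmk (by rwa [h] at hmj), hmj⟩
    · rw [if_neg hk]
      have := indicator_tsum_near (hrow (z k)) (A := A) (H := ∅) (c := δ / 8) (by simp)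
        fun F' hF' => by
          refine hc1 k F' fun m hm => ?_
          obtain ⟨⟨j, hj, hmj⟩, -⟩ := hF' m hm
          exact ⟨j, fun h => hk (by rwa [h] at hj), hmj⟩
      simpa using this
  refine ⟨⟨α, β, A, z⟩, hα, hconvA, hzl, hzβ, ?_, ?_, ?_, ?_⟩
  · intro μ
    exact (hdec (Sum.inl μ)).comp hs
  · intro μ ν
    right
    filter_upwards [eventually_ge_atTop (max μ.length ν.length)] with k hk
    rintro ⟨w, hw, j, hj, hmj⟩
    exact hnotrel k j _ hmj
      ⟨μ, ν, w, (le_max_left _ _).trans hk, (le_max_right _ _).trans hk, hw, rfl⟩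
  · intro p hp μ ν
    by_cases hpβ : p.1 = β
    · rw [hB₀ p hp hpβ]
      exact (hdec (Sum.inr (μ, ν))).comp hs
    · right
      exact eventually_not_mem_sh (hF p hp) hpβ hzl hzβ μ ν
  · rintro ⟨l, hl⟩
    change Tendsto (fun k => ∑' m, A.indicator (t (z k)) m) atTop (𝓝 l) at hl
    have he : Tendsto (fun k : ℕ => 2 * k) atTop atTop :=
      tendsto_atTop_mono (fun k => by simp only [id_eq]; omega) tendsto_id
    have ho : Tendsto (fun k : ℕ => 2 * k + 1) atTop atTop :=
      tendsto_atTop_mono (fun k => by simp only [id_eq]; omega) tendsto_id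
    have h1 : |l| ≤ δ / 8 := by
      refine le_of_tendsto' (hl.comp ho).abs fun k => ?_
      have := hcomp (2 * k + 1)
      rw [if_neg (by simp), sub_zero] at this
      exact this
    have h2 : δ / 2 - δ / 8 ≤ |l| := by
      refine ge_of_tendsto' (hl.comp he).abs fun k => ?_
      have h3 := hcomp (2 * k)
      rw [if_pos (by simp)] at h3
      have h4 := hsum (φ (s (2 * k)))
      have h5 := abs_sub_abs_le_abs_sub (∑ m ∈ H (s (2 * k)), t (z (2 * k)) m)
        (∑' m, A.indicator (t (z (2 * k))) m)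
      rw [abs_sub_comm] at h3
      have h6 : δ / 2 < |∑ m ∈ H (s (2 * k)), t (z (2 * k)) m| := h4
      have h7 := h5.trans h3
      simp only [Function.comp_apply]
      linarith
    linarith

/-- Prefix membership of `μ₀ x`. -/
lemma prefix_append_iff {μ μ₀ x : W} :
    μ <+: μ₀ ++ x ↔ μ <+: μ₀ ∨ ∃ r, μ = μ₀ ++ r ∧ r <+: x := by
  constructor
  · rintro ⟨c, hc⟩
    rcases List.append_eq_append_iff.1 hc with ⟨a, h1, h2⟩ | ⟨b, h1, h2⟩
    · exact Or.inl ⟨a, h1.symm⟩
    · exact Or.inr ⟨b, h1, ⟨c, h2.symm⟩⟩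
  · rintro (h | ⟨r, rfl, h⟩)
    · exact h.trans (List.prefix_append _ _)
    · exact (List.prefix_append_right_inj _).2 h

lemma self_rel_iff {μ ν μ₀ ν₀ x : W} :
    (∃ w, μ₀ ++ x = μ ++ w ∧ ν ++ w = ν₀ ++ x) ↔
      ((∃ r, μ₀ = μ ++ r ∧ ν₀ = ν ++ r) ∨ ∃ r, (μ = μ₀ ++ r ∧ ν = ν₀ ++ r) ∧ r <+: x) := by
  constructor
  · rintro ⟨w, h1, h2⟩
    rcases List.append_eq_append_iff.1 h1 with ⟨a, h3, h4⟩ | ⟨b, h3, h4⟩
    · right
      subst h3 h4
      refine ⟨a, ⟨rfl, ?_⟩, List.prefix_append _ _⟩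
      rw [← List.append_assoc] at h2
      exact List.append_cancel_right h2
    · left
      subst h3 h4
      refine ⟨b, rfl, ?_⟩
      rw [← List.append_assoc] at h2
      exact (List.append_cancel_right h2).symm
  · rintro (⟨r, rfl, rfl⟩ | ⟨r, ⟨rfl, rfl⟩, ⟨c, rfl⟩⟩)
    · exact ⟨r ++ x, by simp, by simp⟩
    · exact ⟨c, by simp, by simp⟩

/-- Second kill lemma. -/
lemma kill2 {t : W → W → ℝ} {M : ℝ} (hrow : ∀ n, ∀ F : Finset W, ∑ m ∈ F, |t n m| ≤ M)
    {U : Set Br} {F : Set (Br × Set W)} (hF : ∀ p ∈ F, Conv p.2 p.1)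
    (hFU : ∀ p ∈ F, p.1 ∈ U) {α : Br} (hα : α ∉ U)
    (hG : ¬ G2 t α) : ∃ d, IsCert t U F d := by
  classical
  unfold G2 at hG
  push Not at hG
  obtain ⟨μ₀, ν₀, δ, hδ, hG⟩ := hG
  choose w₁ w₂ hw₁ hw₂ htake hgap using hG
  have hl₁ : Tendsto (fun k => (w₁ k).length) atTop atTop :=
    tendsto_atTop_mono (fun k => le_length_of_suffix (hw₁ k)) tendsto_id
  have hl₂ : Tendsto (fun k => (w₂ k).length) atTop atTop :=
    tendsto_atTop_mono (fun k => le_length_of_suffix (hw₂ k)) tendsto_id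
  obtain ⟨φ, hφ, hdec, hlim⟩ := exists_subseq (ι := W) (κ := (W ⊕ W) ⊕ (Unit ⊕ Unit))
    (fun r k => r <+: w₁ k)
    (fun i k => Sum.elim
      (Sum.elim (fun m => t (μ₀ ++ w₁ k) m) (fun m => t (μ₀ ++ w₂ k) m))
      (Sum.elim (fun _ => t (μ₀ ++ w₁ k) (ν₀ ++ w₁ k)) (fun _ => t (μ₀ ++ w₂ k) (ν₀ ++ w₂ k))) i)
    (by
      rintro ((m | m) | (m | m)) <;> exact ⟨M, fun k => abs_le_of_row hrow _ _⟩)
  have hφge : ∀ k, k ≤ φ k := hφ.id_le
  let w : Bool → ℕ → W := fun c k => if c then w₂ (φ k) else w₁ (φ k)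
  have hwl : ∀ c, Tendsto (fun k => (w c k).length) atTop atTop := by
    rintro (_ | _)
    · simpa [w, Function.comp_def] using hl₁.comp hφ.tendsto_atTop
    · simpa [w, Function.comp_def] using hl₂.comp hφ.tendsto_atTop
  have hws : ∀ c k, suf α k <:+ w c k := by
    rintro (_ | _) k
    · simpa [w] using suffix_mono (hφge k) (hw₁ (φ k))
    · simpa [w] using suffix_mono (hφge k) (hw₂ (φ k))
  obtain ⟨a, ha⟩ := hlim (Sum.inr (Sum.inl ()))
  obtain ⟨b, hb⟩ := hlim (Sum.inr (Sum.inr ()))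
  simp only [Sum.elim_inr, Sum.elim_inl] at ha hb
  have hab : δ ≤ |a - b| :=
    ge_of_tendsto' (ha.sub hb).abs fun k => (hgap (φ k)).le
  have hpre : ∀ r : W, ∀ᶠ k in atTop, ∀ c, (r <+: w c k ↔ r <+: w₁ (φ k)) := by
    intro r
    filter_upwards [eventually_ge_atTop r.length] with k hk
    rintro (_ | _)
    · simp [w]
    · have h1 := htake (φ k)
      have h2 : r.length ≤ φ k := hk.trans (hφge k)
      have h3 : ∀ v : W, r <+: v ↔ r <+: v.take (φ k) := by
        intro v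
        constructor
        · intro h
          rw [List.prefix_take_iff]
          exact ⟨h, h2⟩
        · intro h
          exact h.trans (List.take_prefix _ _)
      simp only [w, if_true]
      rw [h3 (w₂ (φ k)), ← h1, ← h3]
  let Y : Bool → ℕ → W := fun c k => μ₀ ++ w c k
  let Fs : Bool → ℕ → Finset W := fun c k => {ν₀ ++ w c k}
  have hFs : ∀ c (ℓ : ℕ), ∀ᶠ b in atTop, ∀ m ∈ Fs c b, ℓ ≤ m.length := by
    intro c ℓ
    filter_upwards [(hwl c).eventually_ge_atTop ℓ] with b hb m hm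
    rw [Finset.mem_singleton.1 hm, List.length_append]
    omega
  have hYl : ∀ c, Tendsto (fun b => (Y c b).length) atTop atTop := fun c =>
    tendsto_atTop_mono (fun k => by simp [Y]) (hwl c)
  obtain ⟨s, hs, hc1, hc2, hc3⟩ := sparse hrow Y Fs
    (fun c c' => earlier_small hrow (y := Y c') (Fs := Fs c) (by
      intro m
      rcases c' with _ | _
      · simpa [Y, w] using hlim (Sum.inl (Sum.inl m))
      · simpa [Y, w] using hlim (Sum.inl (Sum.inr m))) (hFs c))
    hYl hFs (δ := δ / 8) (by positivity)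
  have hsge : ∀ k, k ≤ s k := hs.id_le
  let x : ℕ → W := fun k => w k.bodd (s k)
  let z : ℕ → W := fun k => μ₀ ++ x k
  let A : Set W := {m | ∃ j, m = ν₀ ++ x j}
  have hxl : Tendsto (fun k => (x k).length) atTop atTop := by
    have h : ∀ k, k ≤ (x k).length := fun k =>
      (hsge k).trans (le_length_of_suffix (hws k.bodd (s k)))
    exact tendsto_atTop_mono h tendsto_id
  have hxs : ∀ k, suf α k <:+ x k := fun k => suffix_mono (hsge k) (hws _ _)
  have hzl : Tendsto (fun k => (z k).length) atTop atTop :=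
    tendsto_atTop_mono (fun k => by simp [z]) hxl
  have hzα : ∀ j, ∀ᶠ k in atTop, suf α j <:+ z k := by
    intro j
    filter_upwards [eventually_ge_atTop j] with k hk
    exact (suffix_mono hk (hxs k)).trans (List.suffix_append _ _)
  have hpx : ∀ r : W, Dec fun k => r <+: x k := by
    intro r
    refine ((hdec r).comp hs).congr ?_
    filter_upwards [hs.tendsto_atTop.eventually (hpre r)] with k hk
    exact (hk _).symm
  have hexists : ∀ (p : W → Prop) (q : W → W → Prop),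
      (∀ r, Dec fun k => q r (x k)) → (∀ r r', p r → p r' → r = r') →
      Dec fun k => ∃ r, p r ∧ q r (x k) := by
    intro p q hq hu
    by_cases h : ∃ r, p r
    · obtain ⟨r, hr⟩ := h
      refine (hq r).congr (Eventually.of_forall fun k => ⟨fun h => ⟨r, hr, h⟩, ?_⟩)
      rintro ⟨r', hr', h⟩
      rwa [hu r r' hr hr']
    · refine (Dec.const False).congr (Eventually.of_forall fun k => ⟨False.elim, ?_⟩)
      rintro ⟨r, hr, -⟩
      exact h ⟨r, hr⟩
  refine ⟨⟨α, α, A, z⟩, hα, ?_, hzl, hzα, ?_, ?_, ?_, ?_⟩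
  · -- Conv
    intro k
    have : {m ∈ A | ¬ suf α k <:+ m} ⊆ (fun j => ν₀ ++ x j) '' (Finset.range k : Set ℕ) := by
      rintro m ⟨⟨j, rfl⟩, hm⟩
      refine ⟨j, ?_, rfl⟩
      simp only [Finset.coe_range, Set.mem_Iio]
      by_contra hjk
      exact hm ((suffix_mono (not_lt.1 hjk) (hxs j)).trans (List.suffix_append _ _))
    exact ((Finset.finite_toSet _).image _).subset this
  · -- cylinders
    intro μ
    refine Dec.congr ((Dec.const (μ <+: μ₀)).or
      (hexists (fun r => μ = μ₀ ++ r) (fun r v => r <+: v) hpx ?_))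
      (Eventually.of_forall fun k => prefix_append_iff.symm)
    intro r r' h h'
    exact List.append_cancel_left (h.symm.trans h')
  · -- self
    intro μ ν
    have h1 : Dec fun k => ∃ v, μ₀ ++ x k = μ ++ v ∧ ν ++ v = ν₀ ++ x k := by
      refine Dec.congr ((Dec.const (∃ r, μ₀ = μ ++ r ∧ ν₀ = ν ++ r)).or
        (hexists (fun r => μ = μ₀ ++ r ∧ ν = ν₀ ++ r) (fun r v => r <+: v) hpx ?_))
        (Eventually.of_forall fun k => self_rel_iff.symm)
      rintro r r' ⟨h, -⟩ ⟨h', -⟩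
      exact List.append_cancel_left (h.symm.trans h')
    refine h1.congr ?_
    filter_upwards [eventually_ge_atTop (max μ.length ν.length)] with k hk
    constructor
    · rintro ⟨v, hv1, hv2⟩
      exact ⟨v, hv1, k, hv2⟩
    · rintro ⟨v, hv1, j, hv2⟩
      refine ⟨v, hv1, ?_⟩
      rcases eq_or_ne j k with rfl | hjk
      · exact hv2
      · exfalso
        refine hc2 k j hjk (ν ++ v) (by rw [hv2]; exact Finset.mem_singleton_self _) ?_
        exact ⟨μ, ν, v, ((le_max_left _ _).trans hk).trans (le_max_right _ _),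
          ((le_max_right _ _).trans hk).trans (le_max_right _ _), hv1, rfl⟩
  · -- the family
    intro p hp μ ν
    right
    refine eventually_not_mem_sh (hF p hp) ?_ hzl hzα μ ν
    intro h
    exact hα (h ▸ hFU p hp)
  · -- non convergence
    rintro ⟨l, hl⟩
    change Tendsto (fun k => ∑' m, A.indicator (t (z k)) m) atTop (𝓝 l) at hl
    have hcomp : ∀ k, |∑' m, A.indicator (t (z k)) m - t (μ₀ ++ x k) (ν₀ ++ x k)| ≤ δ / 8 := by
      intro k
      have := indicator_tsum_near (hrow (z k)) (A := A) (H := {ν₀ ++ x k}) (c := δ / 8)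
        (by simp only [Finset.coe_singleton, Set.singleton_subset_iff]; exact ⟨k, rfl⟩)
        fun F' hF' => by
          refine hc1 k F' fun m hm => ?_
          obtain ⟨⟨j, hj⟩, hmk⟩ := hF' m hm
          refine ⟨j, ?_, by rw [hj]; exact Finset.mem_singleton_self _⟩
          rintro rfl
          exact hmk (by rw [hj]; exact Finset.mem_singleton_self _)
      simpa using this
    have he : Tendsto (fun k : ℕ => 2 * k) atTop atTop :=
      tendsto_atTop_mono (fun k => by simp only [id_eq]; omega) tendsto_id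
    have ho : Tendsto (fun k : ℕ => 2 * k + 1) atTop atTop :=
      tendsto_atTop_mono (fun k => by simp only [id_eq]; omega) tendsto_id
    have h1 : |l - a| ≤ δ / 8 := by
      have h2 : Tendsto (fun k => t (μ₀ ++ x (2 * k)) (ν₀ ++ x (2 * k))) atTop (𝓝 a) := by
        have h3 : ∀ k, x (2 * k) = w₁ (φ (s (2 * k))) := fun k => by simp [x, w]
        simp only [h3]
        exact ha.comp (hs.tendsto_atTop.comp he)
      exact le_of_tendsto' ((hl.comp he).sub h2).abs fun k => hcomp (2 * k)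
    have h2 : |l - b| ≤ δ / 8 := by
      have h2 : Tendsto (fun k => t (μ₀ ++ x (2 * k + 1)) (ν₀ ++ x (2 * k + 1))) atTop (𝓝 b) := by
        have h3 : ∀ k, x (2 * k + 1) = w₂ (φ (s (2 * k + 1))) := fun k => by simp [x, w]
        simp only [h3]
        exact hb.comp (hs.tendsto_atTop.comp ho)
      exact le_of_tendsto' ((hl.comp ho).sub h2).abs fun k => hcomp (2 * k + 1)
    have h3 : |a - b| ≤ |l - a| + |l - b| := by
      have := abs_sub_le a l b
      rwa [abs_sub_comm a l] at this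
    linarith

end Pool.Agent.Helper15.CK
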