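import Pool.Agent.Helper15.CK.Words

set_option autoImplicit false

/-! Bounded functions on words. -/

namespace Pool.Agent.Helper15.CK

/-- Bounded real functions on words. -/
abbrev V := lp (fun _ : W => ℝ) ⊤

/-- Bounded functions vanishing on all words of length `< n`. -/
def Vge (n : ℕ) : Submodule ℝ V where
  carrier := {f | ∀ w : W, w.length < n → f w = 0}
  add_mem' := by
    intro f g hf hg w hw
    simp [hf w hw, hg w hw]
  zero_mem' := by intro w _; simp
  smul_mem' := by
    intro c f hf w hw
    simp [hf w hw]

/-- Append the letter `j` at the end: `(R j f) (w ++ [j]) = f w`, and `0` on other words. -/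
noncomputable def R (j : Fin 3) : V →ₗ[ℝ] V where
  toFun f := ⟨fun w => if w.getLast? = some j then f w.dropLast else 0, by
    refine memℓp_infty ⟨‖f‖, ?_⟩
    rintro _ ⟨w, rfl⟩
    by_cases h : w.getLast? = some j
    · simp only [h, if_true]; exact lp.norm_apply_le_norm ENNReal.top_ne_zero f _
    · simp [h]⟩
  map_add' f g := by
    ext w
    change (if w.getLast? = some j then (f + g) w.dropLast else 0)
      = (if w.getLast? = some j then f w.dropLast else 0)
        + (if w.getLast? = some j then g w.dropLast else 0)
    by_cases h : w.getLast? = some j <;> simp [h]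
  map_smul' c f := by
    ext w
    change (if w.getLast? = some j then (c • f) w.dropLast else 0)
      = c * (if w.getLast? = some j then f w.dropLast else 0)
    by_cases h : w.getLast? = some j <;> simp [h]

lemma R_apply (j : Fin 3) (f : V) (w : W) :
    R j f w = if w.getLast? = some j then f w.dropLast else 0 := rfl

@[simp] lemma R_apply_concat (j : Fin 3) (f : V) (w : W) : R j f (w ++ [j]) = f w := by
  simp [R_apply]

lemma mem_Vge {n : ℕ} {f : V} : f ∈ Vge n ↔ ∀ w : W, w.length < n → f w = 0 := Iff.rfl

end Pool.Agent.Helper15.CK
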