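import Pool.Agent.Helper15.CK.Approx
import Pool.Agent.Helper93.CK.Parity
import Pool.Agent.Helper58.CK.Absorb
import Pool.Agent.Helper58.CK.Cube

set_option autoImplicit false

/-! Final assembly. -/

open Filter Topology

namespace Pool.Agent.Helper15.CK

/-! ### A surjectivity lemma -/

open Classical in
/-- truncation to words of length `≥ n` -/
noncomputable def trunc (n : ℕ) : V →L[ℝ] V :=
  LinearMap.mkContinuous
    { toFun := fun f => mkV (fun w => if n ≤ w.length then f w else 0) ‖f‖ (fun w => by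
        split_ifs
        · exact abs_apply_le f w
        · simp)
      map_add' := by
        intro f g; ext w
        change (if n ≤ w.length then (f w + g w) else 0)
          = (if n ≤ w.length then f w else 0) + (if n ≤ w.length then g w else 0)
        split_ifs <;> simp
      map_smul' := by
        intro c f; ext w
        change (if n ≤ w.length then (c * f w) else 0) = c * (if n ≤ w.length then f w else 0)
        split_ifs <;> simp }
    1 (fun f => by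
      rw [one_mul]
      refine norm_le_V (norm_nonneg _) fun w => ?_
      change |if n ≤ w.length then f w else 0| ≤ ‖f‖
      split_ifs
      · exact abs_apply_le f w
      · simp)

open Classical in
lemma trunc_apply (n : ℕ) (f : V) (w : W) : trunc n f w = if n ≤ w.length then f w else 0 := rfl

lemma trunc_mem (n : ℕ) (f : V) : trunc n f ∈ Vge n := by
  intro w hw
  rw [trunc_apply, if_neg (by omega)]

lemma norm_trunc_le (n : ℕ) (f : V) : ‖trunc n f‖ ≤ ‖f‖ := by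
  refine norm_le_V (norm_nonneg _) fun w => ?_
  rw [trunc_apply]
  split_ifs
  · exact abs_apply_le f w
  · simp

lemma trunc_trunc (n : ℕ) (f : V) : trunc n (trunc n f) = trunc n f := by
  ext w
  rw [trunc_apply, trunc_apply]
  split_ifs <;> rfl

open Classical in
/-- extension by zero of a function on short words -/
noncomputable def ext0 (n : ℕ) : (↥(wordsLE n) → ℝ) →ₗ[ℝ] V where
  toFun g := mkV (fun w => if h : w ∈ wordsLE n then g ⟨w, h⟩ else 0) ‖g‖ (fun w => by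
    split_ifs with h
    · exact norm_le_pi_norm g ⟨w, h⟩
    · simp)
  map_add' := by
    intro f g; ext w
    change (if h : w ∈ wordsLE n then (f ⟨w, h⟩ + g ⟨w, h⟩) else 0)
      = (if h : w ∈ wordsLE n then f ⟨w, h⟩ else 0) + (if h : w ∈ wordsLE n then g ⟨w, h⟩ else 0)
    split_ifs <;> simp
  map_smul' := by
    intro c f; ext w
    change (if h : w ∈ wordsLE n then (c * f ⟨w, h⟩) else 0)
      = c * (if h : w ∈ wordsLE n then f ⟨w, h⟩ else 0)
    split_ifs <;> simp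

lemma exists_ext0 {n : ℕ} {f : V} (hf : ∀ w : W, n ≤ w.length → f w = 0) :
    ∃ g, ext0 n g = f := by
  refine ⟨fun w => f w.1, ?_⟩
  ext w
  change (if h : w ∈ wordsLE n then f w else 0) = f w
  split_ifs with h
  · rfl
  · rw [hf w]
    rw [mem_wordsLE] at h
    omega

lemma finite_quotient {D : V →L[ℝ] V × V} {E : V × V →L[ℝ] V} {n n' : ℕ}
    (hE : ∀ h : V × V, h.1 ∈ Vge n' → h.2 ∈ Vge n' → E h ∈ Vge n)
    (hDE : ∀ h : V × V, h.1 ∈ Vge n' → h.2 ∈ Vge n' → ‖D (E h) - h‖ ≤ 1 / 2 * ‖h‖) :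
    Module.Finite ℝ ((V × V) ⧸ (Vge n).map D.toLinearMap) := by
  let P : V × V →L[ℝ] V × V := (trunc n').prodMap (trunc n')
  have hP1 : ∀ h, (P h).1 = trunc n' h.1 := fun h => rfl
  have hP2 : ∀ h, (P h).2 = trunc n' h.2 := fun h => rfl
  have hPn : ∀ h, ‖P h‖ ≤ ‖h‖ := by
    intro h
    rw [Prod.norm_def, Prod.norm_def]
    exact max_le_max (norm_trunc_le _ _) (norm_trunc_le _ _)
  have hPP : ∀ h, P (P h) = P h := by
    intro h
    exact Prod.ext (trunc_trunc _ _) (trunc_trunc _ _)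
  let X : V × V →L[ℝ] V × V := P - (P.comp (D.comp (E.comp P)))
  have hXn : ‖X‖ ≤ 1 / 2 := by
    refine ContinuousLinearMap.opNorm_le_bound _ (by norm_num) fun h => ?_
    have e1 : X h = - P (D (E (P h)) - P h) := by
      change P h - P (D (E (P h))) = _
      rw [map_sub, hPP]; abel
    rw [e1, norm_neg]
    refine (hPn _).trans ((hDE _ (trunc_mem _ _) (trunc_mem _ _)).trans ?_)
    exact mul_le_mul_of_nonneg_left (hPn h) (by norm_num)
  have hu : IsUnit (1 - X) := isUnit_one_sub_of_norm_lt_one (hXn.trans_lt (by norm_num))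
  have hsurj : Function.Surjective (1 - X : V × V →L[ℝ] V × V) := by
    obtain ⟨u, hu⟩ := hu
    intro h
    refine ⟨(↑u⁻¹ : V × V →L[ℝ] V × V) h, ?_⟩
    rw [← hu]
    change ((u : V × V →L[ℝ] V × V) * (↑u⁻¹ : V × V →L[ℝ] V × V)) h = h
    rw [Units.mul_inv]; rfl
  let M : Submodule ℝ (V × V) := (Vge n).map D.toLinearMap
  let Q : ((↥(wordsLE n') → ℝ) × (↥(wordsLE n') → ℝ)) →ₗ[ℝ] ((V × V) ⧸ M) :=
    M.mkQ ∘ₗ ((ext0 n').prodMap (ext0 n'))
  refine Module.Finite.of_surjective Q ?_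
  intro y
  obtain ⟨h, rfl⟩ := Submodule.mkQ_surjective M y
  obtain ⟨g, hg⟩ := hsurj h
  set x := E (P g) with hx
  have hxmem : x ∈ Vge n := hE _ (trunc_mem _ _) (trunc_mem _ _)
  have hg' : h = g - P g + P (D x) := by
    rw [← hg]
    change g - (P g - P (D (E (P g)))) = _
    rw [hx]; abel
  have hz1 : ∀ w : W, n' ≤ w.length → (h - D x).1 w = 0 := by
    intro w hw
    rw [hg']
    change g.1 w - trunc n' g.1 w + trunc n' (D x).1 w - (D x).1 w = 0
    rw [trunc_apply, trunc_apply, if_pos hw, if_pos hw]; ring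
  have hz2 : ∀ w : W, n' ≤ w.length → (h - D x).2 w = 0 := by
    intro w hw
    rw [hg']
    change g.2 w - trunc n' g.2 w + trunc n' (D x).2 w - (D x).2 w = 0
    rw [trunc_apply, trunc_apply, if_pos hw, if_pos hw]; ring
  obtain ⟨a, ha⟩ := exists_ext0 hz1
  obtain ⟨b, hb⟩ := exists_ext0 hz2
  refine ⟨(a, b), ?_⟩
  change M.mkQ (ext0 n' a, ext0 n' b) = M.mkQ h
  rw [ha, hb]
  change M.mkQ (h - D x) = M.mkQ h
  rw [map_sub, sub_eq_self]
  exact (Submodule.Quotient.mk_eq_zero M).2 ⟨x, hxmem, rfl⟩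

namespace Family

variable (Γ : Family)

/-! ### Embedding finitely supported functions -/

/-- the function on `K` with values `f q` at `q ++ a`, `q ∈ F` -/
noncomputable def iota (a : W) (F : Finset W) (f : V) : C(Γ.KK, ℝ) :=
  ∑ q ∈ F, f q • Γ.dl (q ++ a)

lemma iota_e {a : W} {F : Finset W} {f : V} (hF : ∀ q, q ∉ F → f q = 0) (n : W) :
    Γ.iota a F f (Γ.e n) = embv a f n := by
  classical
  rw [iota, ContinuousMap.coe_sum, Finset.sum_apply]
  simp only [ContinuousMap.coe_smul, Pi.smul_apply, smul_eq_mul, dl_e]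
  by_cases h : a <:+ n
  · obtain ⟨p, rfl⟩ := h
    rw [embv_append]
    by_cases hp : p ∈ F
    · rw [Finset.sum_eq_single p]
      · simp
      · intro q _ hq
        rw [if_neg, mul_zero]
        exact fun h => hq (List.append_cancel_right h).symm
      · exact fun h => absurd hp h
    · rw [hF p hp]
      refine Finset.sum_eq_zero fun q hq => ?_
      rw [if_neg, mul_zero]
      intro h
      exact hp (List.append_cancel_right h ▸ hq)
  · rw [embv_of_not h]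
    refine Finset.sum_eq_zero fun q _ => ?_
    rw [if_neg, mul_zero]
    rintro rfl
    exact h (List.suffix_append _ _)

lemma abs_embv_le {a : W} {f : V} {c : ℝ} (hc : 0 ≤ c) (hf : ∀ q, |f q| ≤ c) (n : W) :
    |embv a f n| ≤ c := by
  by_cases h : a <:+ n
  · obtain ⟨p, rfl⟩ := h
    rw [embv_append]; exact hf p
  · rw [embv_of_not h, abs_zero]; exact hc

lemma norm_iota_le {a : W} {F : Finset W} {f : V} (hF : ∀ q, q ∉ F → f q = 0) {c : ℝ}
    (hc : 0 ≤ c) (hf : ∀ q, |f q| ≤ c) : ‖Γ.iota a F f‖ ≤ c :=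
  Γ.norm_le_of_e fun n => by rw [Γ.iota_e hF]; exact abs_embv_le hc hf n

lemma abs_le_norm_iota {a : W} {F : Finset W} {f : V} (hF : ∀ q, q ∉ F → f q = 0) (p : W) :
    |f p| ≤ ‖Γ.iota a F f‖ := by
  have h1 := Γ.iota_e (a := a) hF (p ++ a)
  rw [embv_append] at h1
  rw [← h1]
  exact (Γ.iota a F f).norm_coe_le_norm _

lemma apply_iota_e (T : C(Γ.KK, ℝ) →L[ℝ] C(Γ.KK, ℝ)) (a : W) (F : Finset W) (f : V) (n : W) :
    T (Γ.iota a F f) (Γ.e n) = ∑ q ∈ F, f q * Γ.mat T n (q ++ a) := by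
  rw [iota, map_sum, ContinuousMap.coe_sum, Finset.sum_apply]
  refine Finset.sum_congr rfl fun q _ => ?_
  rw [map_smul]; rfl

lemma iota_filter {a : W} {F : Finset W} {f : V} (hF : ∀ q, q ∉ F → f q = 0) {n₀ : ℕ}
    (hf : f ∈ Vge n₀) :
    Γ.iota a F f = Γ.iota a (F.filter fun q => n₀ ≤ q.length) f := by
  have hF' : ∀ q, q ∉ F.filter (fun q => n₀ ≤ q.length) → f q = 0 := by
    intro q hq
    by_cases h : q ∈ F
    · refine hf q ?_
      by_contra h'
      exact hq (Finset.mem_filter.2 ⟨h, not_lt.1 h'⟩)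
    · exact hF q h
  refine Γ.ext_e fun n => ?_
  rw [Γ.iota_e hF, Γ.iota_e hF']

end Family

/-- support of the image -/
lemma opK_support {κ : W → W → ℝ} {M : ℝ} {hκ : ∀ p q, |κ p q| ≤ M} {L : ℕ} {F : Finset W} {f : V}
    (hF : ∀ q, q ∉ F → f q = 0) : ∃ G : Finset W, ∀ p, p ∉ G → opK κ M hκ L f p = 0 := by
  classical
  refine ⟨F.biUnion (ball L), fun p hp => ?_⟩
  rw [opK_apply]
  refine Finset.sum_eq_zero fun q hq => ?_
  rw [hF q, mul_zero]
  intro hqF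
  exact hp (Finset.mem_biUnion.2 ⟨q, hqF, mem_ball.2 (mem_ball.1 hq).symm⟩)

open Classical in
/-- restriction of a bounded function to a finite set -/
noncomputable def cut (S : Finset W) (f : V) : V :=
  mkV (fun w => if w ∈ S then f w else 0) ‖f‖ (fun w => by
    split_ifs
    · exact abs_apply_le f w
    · simp)

open Classical in
lemma cut_apply (S : Finset W) (f : V) (w : W) : cut S f w = if w ∈ S then f w else 0 := rfl

namespace Family

variable (Γ : Family)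

/-- The main theorem: no isomorphism with the square. -/
theorem no_square : IsEmpty (C(Γ.KK, ℝ) ≃L[ℝ] C(Γ.KK, ℝ) × C(Γ.KK, ℝ)) := by
  classical
  refine ⟨fun U => ?_⟩
  let X := C(Γ.KK, ℝ)
  let U₁ : X →L[ℝ] X := (ContinuousLinearMap.fst ℝ X X).comp U.toContinuousLinearMap
  let U₂ : X →L[ℝ] X := (ContinuousLinearMap.snd ℝ X X).comp U.toContinuousLinearMap
  let V₁ : X →L[ℝ] X := U.symm.toContinuousLinearMap.comp (ContinuousLinearMap.inl ℝ X X)
  let V₂ : X →L[ℝ] X := U.symm.toContinuousLinearMap.comp (ContinuousLinearMap.inr ℝ X X)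
  have hVU : ∀ f : X, V₁ (U₁ f) + V₂ (U₂ f) = f := by
    intro f
    change U.symm (U₁ f, 0) + U.symm (0, U₂ f) = f
    rw [← map_add]
    have : ((U₁ f, 0) : X × X) + (0, U₂ f) = U f := by
      ext1 <;> simp [U₁, U₂]
    rw [this, U.symm_apply_apply]
  have hUV1 : ∀ x y : X, U₁ (V₁ x + V₂ y) = x := by
    intro x y
    have : V₁ x + V₂ y = U.symm (x, y) := by
      change U.symm (x, 0) + U.symm (0, y) = _
      rw [← map_add]; simp
    rw [this]
    change (U (U.symm (x, y))).1 = x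
    rw [U.apply_symm_apply]
  have hUV2 : ∀ x y : X, U₂ (V₁ x + V₂ y) = y := by
    intro x y
    have : V₁ x + V₂ y = U.symm (x, y) := by
      change U.symm (x, 0) + U.symm (0, y) = _
      rw [← map_add]; simp
    rw [this]
    change (U (U.symm (x, y))).2 = y
    rw [U.apply_symm_apply]
  obtain ⟨α, hα⟩ := Γ.exists_good {U₁, U₂, V₁, V₂}
  set C := ‖U₁‖ + ‖U₂‖ + ‖V₁‖ + ‖V₂‖ + 1 with hC
  have hU1 : 0 ≤ ‖U₁‖ := U₁.opNorm_nonneg
  have hU2 : 0 ≤ ‖U₂‖ := U₂.opNorm_nonneg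
  have hV1 : 0 ≤ ‖V₁‖ := V₁.opNorm_nonneg
  have hV2 : 0 ≤ ‖V₂‖ := V₂.opNorm_nonneg
  have hC1 : 1 ≤ C := by linarith
  set ε := 1 / (8 * C) with hε
  have hε0 : 0 < ε := by positivity
  have hεC : ε * C = 1 / 8 := by rw [hε]; field_simp
  have hε1 : ε ≤ 1 / 8 := by
    rw [← hεC]; nlinarith
  obtain ⟨L, J, k, hpar⟩ := exists_params (α := α) {Γ.mat U₁, Γ.mat U₂, Γ.mat V₁, Γ.mat V₂}
    (by
      intro t ht
      simp only [Finset.mem_insert, Finset.mem_singleton] at ht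
      rcases ht with rfl | rfl | rfl | rfl
      · exact hα U₁ (by simp)
      · exact hα U₂ (by simp)
      · exact hα V₁ (by simp)
      · exact hα V₂ (by simp))
    (by
      intro t ht
      simp only [Finset.mem_insert, Finset.mem_singleton] at ht
      rcases ht with rfl | rfl | rfl | rfl
      · exact ⟨_, Γ.mat_row U₁⟩
      · exact ⟨_, Γ.mat_row U₂⟩
      · exact ⟨_, Γ.mat_row V₁⟩
      · exact ⟨_, Γ.mat_row V₂⟩) hε0
  set a := suf α k with ha
  have hMb : ∀ T : X →L[ℝ] X, ∀ p q, |ker (Γ.mat T) a L J p q| ≤ ‖T‖ := fun T =>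
    abs_ker_le (abs_le_of_row (Γ.mat_row T)) a L J
  let DD : (X →L[ℝ] X) → (V →L[ℝ] V) := fun T => opK (ker (Γ.mat T) a L J) ‖T‖ (hMb T) L
  let n₀ := J + 2 * L
  -- one step approximation
  have step : ∀ T ∈ ({U₁, U₂, V₁, V₂} : Finset (X →L[ℝ] X)), ∀ (F G : Finset W) (f : V) (c : ℝ),
      (∀ q, q ∉ F → f q = 0) → (∀ q, q ∉ G → DD T f q = 0) → (∀ q, |f q| ≤ c) → f ∈ Vge n₀ →
      ‖T (Γ.iota a F f) - Γ.iota a G (DD T f)‖ ≤ ε * c := by
    intro T hT F G f c hF hG hc hf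
    have hF' : ∀ q, q ∉ F.filter (fun q => n₀ ≤ q.length) → f q = 0 := by
      intro q hq
      by_cases h : q ∈ F
      · refine hf q ?_
        by_contra h'
        exact hq (Finset.mem_filter.2 ⟨h, not_lt.1 h'⟩)
      · exact hF q h
    rw [Γ.iota_filter hF hf]
    refine Γ.norm_le_of_e fun n => ?_
    rw [ContinuousMap.sub_apply, Γ.apply_iota_e, Γ.iota_e hG]
    refine hpar (Γ.mat T) ?_ ‖T‖ (hMb T) _ f c hF' hc (fun q hq => (Finset.mem_filter.1 hq).2) n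
    simp only [Finset.mem_insert, Finset.mem_singleton] at hT ⊢
    rcases hT with rfl | rfl | rfl | rfl <;> simp
  have hbd : ∀ T : X →L[ℝ] X, ∀ x : X, ‖T x‖ ≤ ‖T‖ * ‖x‖ := fun T x => T.le_opNorm x
  -- first composition, finite support
  have comp1 : ∀ (F : Finset W) (f : V) (c : ℝ), (∀ q, q ∉ F → f q = 0) → (∀ q, |f q| ≤ c) →
      f ∈ Vge (n₀ + L) → ∀ p,
      |f p - (DD V₁ (DD U₁ f) p + DD V₂ (DD U₂ f) p)| ≤ 1 / 2 * c := by
    intro F f c hF hc hf p
    have hc0 : 0 ≤ c := (abs_nonneg _).trans (hc [])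
    have hf0 : f ∈ Vge n₀ := fun w hw => hf w (by omega)
    obtain ⟨G₁, hG₁⟩ := opK_support (κ := ker (Γ.mat U₁) a L J) (hκ := hMb U₁) (L := L) hF
    obtain ⟨G₂, hG₂⟩ := opK_support (κ := ker (Γ.mat U₂) a L J) (hκ := hMb U₂) (L := L) hF
    obtain ⟨H₁, hH₁⟩ := opK_support (κ := ker (Γ.mat V₁) a L J) (hκ := hMb V₁) (L := L) hG₁
    obtain ⟨H₂, hH₂⟩ := opK_support (κ := ker (Γ.mat V₂) a L J) (hκ := hMb V₂) (L := L) hG₂
    have s1 := step U₁ (by simp) F G₁ f c hF hG₁ hc hf0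
    have s2 := step U₂ (by simp) F G₂ f c hF hG₂ hc hf0
    have hif : ‖Γ.iota a F f‖ ≤ c := Γ.norm_iota_le hF hc0 hc
    have n1 : ‖Γ.iota a G₁ (DD U₁ f)‖ ≤ (‖U₁‖ + ε) * c := by
      have h1 := norm_sub_norm_le (Γ.iota a G₁ (DD U₁ f)) (U₁ (Γ.iota a F f))
      rw [norm_sub_rev] at h1
      have h2 := (hbd U₁ (Γ.iota a F f)).trans (mul_le_mul_of_nonneg_left hif hU1)
      linarith
    have n2 : ‖Γ.iota a G₂ (DD U₂ f)‖ ≤ (‖U₂‖ + ε) * c := by
      have h1 := norm_sub_norm_le (Γ.iota a G₂ (DD U₂ f)) (U₂ (Γ.iota a F f))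
      rw [norm_sub_rev] at h1
      have h2 := (hbd U₂ (Γ.iota a F f)).trans (mul_le_mul_of_nonneg_left hif hU2)
      linarith
    have t1 := step V₁ (by simp) G₁ H₁ (DD U₁ f) ((‖U₁‖ + ε) * c) hG₁ hH₁
      (fun q => (Γ.abs_le_norm_iota hG₁ q).trans n1) (opK_mem_Vge hf)
    have t2 := step V₂ (by simp) G₂ H₂ (DD U₂ f) ((‖U₂‖ + ε) * c) hG₂ hH₂
      (fun q => (Γ.abs_le_norm_iota hG₂ q).trans n2) (opK_mem_Vge hf)
    have hfp : Γ.iota a F f (Γ.e (p ++ a)) = f p := by rw [Γ.iota_e hF, embv_append]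
    have hp1 : Γ.iota a H₁ (DD V₁ (DD U₁ f)) (Γ.e (p ++ a)) = DD V₁ (DD U₁ f) p := by
      rw [Γ.iota_e hH₁, embv_append]
    have hp2 : Γ.iota a H₂ (DD V₂ (DD U₂ f)) (Γ.e (p ++ a)) = DD V₂ (DD U₂ f) p := by
      rw [Γ.iota_e hH₂, embv_append]
    have hid : Γ.iota a F f - (Γ.iota a H₁ (DD V₁ (DD U₁ f)) + Γ.iota a H₂ (DD V₂ (DD U₂ f)))
        = V₁ (U₁ (Γ.iota a F f) - Γ.iota a G₁ (DD U₁ f))
          + V₂ (U₂ (Γ.iota a F f) - Γ.iota a G₂ (DD U₂ f))
          + (V₁ (Γ.iota a G₁ (DD U₁ f)) - Γ.iota a H₁ (DD V₁ (DD U₁ f)))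
          + (V₂ (Γ.iota a G₂ (DD U₂ f)) - Γ.iota a H₂ (DD V₂ (DD U₂ f))) := by
      have := hVU (Γ.iota a F f)
      rw [map_sub, map_sub]
      nth_rewrite 1 [← this]
      abel
    have hnorm : ‖Γ.iota a F f
        - (Γ.iota a H₁ (DD V₁ (DD U₁ f)) + Γ.iota a H₂ (DD V₂ (DD U₂ f)))‖ ≤ 1 / 2 * c := by
      rw [hid]
      have e1 := (hbd V₁ (U₁ (Γ.iota a F f) - Γ.iota a G₁ (DD U₁ f))).trans
        (mul_le_mul_of_nonneg_left s1 hV1)
      have e2 := (hbd V₂ (U₂ (Γ.iota a F f) - Γ.iota a G₂ (DD U₂ f))).trans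
        (mul_le_mul_of_nonneg_left s2 hV2)
      have e3 : ‖V₁ (U₁ (Γ.iota a F f) - Γ.iota a G₁ (DD U₁ f))
          + V₂ (U₂ (Γ.iota a F f) - Γ.iota a G₂ (DD U₂ f))
          + (V₁ (Γ.iota a G₁ (DD U₁ f)) - Γ.iota a H₁ (DD V₁ (DD U₁ f)))
          + (V₂ (Γ.iota a G₂ (DD U₂ f)) - Γ.iota a H₂ (DD V₂ (DD U₂ f)))‖
          ≤ ‖V₁‖ * (ε * c) + ‖V₂‖ * (ε * c) + ε * ((‖U₁‖ + ε) * c) + ε * ((‖U₂‖ + ε) * c) :=
        (norm_add_le _ _).trans (add_le_add ((norm_add_le _ _).trans (add_le_add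
          ((norm_add_le _ _).trans (add_le_add e1 e2)) t1)) t2)
      refine e3.trans ?_
      have e4 : ‖V₁‖ * (ε * c) + ‖V₂‖ * (ε * c) + ε * ((‖U₁‖ + ε) * c) + ε * ((‖U₂‖ + ε) * c)
          = (ε * (‖U₁‖ + ‖U₂‖ + ‖V₁‖ + ‖V₂‖ + 2 * ε)) * c := by ring
      rw [e4]
      refine mul_le_mul_of_nonneg_right ?_ hc0
      have : ε * (‖U₁‖ + ‖U₂‖ + ‖V₁‖ + ‖V₂‖ + 2 * ε) ≤ ε * C :=
        mul_le_mul_of_nonneg_left (by rw [hC]; linarith) hε0.le
      linarith
    have := ((Γ.iota a F f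
        - (Γ.iota a H₁ (DD V₁ (DD U₁ f)) + Γ.iota a H₂ (DD V₂ (DD U₂ f)))).norm_coe_le_norm
          (Γ.e (p ++ a))).trans hnorm
    rw [ContinuousMap.sub_apply, ContinuousMap.add_apply, hfp, hp1, hp2] at this
    exact this
  -- second composition, finite support
  have comp2 : ∀ (T : X →L[ℝ] X), T ∈ ({U₁, U₂} : Finset (X →L[ℝ] X)) →
      ∀ (F F' : Finset W) (f f' : V) (c : ℝ),
      (∀ q, q ∉ F → f q = 0) → (∀ q, q ∉ F' → f' q = 0) → (∀ q, |f q| ≤ c) → (∀ q, |f' q| ≤ c) →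
      f ∈ Vge (n₀ + L) → f' ∈ Vge (n₀ + L) → ∀ p,
      |T (V₁ (Γ.iota a F f) + V₂ (Γ.iota a F' f')) (Γ.e (p ++ a))
        - DD T (DD V₁ f + DD V₂ f') p| ≤ 1 / 2 * c := by
    intro T hT F F' f f' c hF hF' hc hc' hf hf' p
    have hT' : T ∈ ({U₁, U₂, V₁, V₂} : Finset (X →L[ℝ] X)) := by
      simp only [Finset.mem_insert, Finset.mem_singleton] at hT ⊢
      tauto
    have hTn : ‖T‖ ≤ ‖U₁‖ + ‖U₂‖ := by
      simp only [Finset.mem_insert, Finset.mem_singleton] at hT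
      rcases hT with rfl | rfl <;> linarith
    have hT0 : 0 ≤ ‖T‖ := T.opNorm_nonneg
    have hc0 : 0 ≤ c := (abs_nonneg _).trans (hc [])
    have hf0 : f ∈ Vge n₀ := fun w hw => hf w (by omega)
    have hf0' : f' ∈ Vge n₀ := fun w hw => hf' w (by omega)
    obtain ⟨G₁, hG₁⟩ := opK_support (κ := ker (Γ.mat V₁) a L J) (hκ := hMb V₁) (L := L) hF
    obtain ⟨G₂, hG₂⟩ := opK_support (κ := ker (Γ.mat V₂) a L J) (hκ := hMb V₂) (L := L) hF'
    set g : V := DD V₁ f + DD V₂ f' with hg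
    have hGg : ∀ q, q ∉ G₁ ∪ G₂ → g q = 0 := by
      intro q hq
      rw [Finset.mem_union, not_or] at hq
      change DD V₁ f q + DD V₂ f' q = 0
      rw [show DD V₁ f q = 0 from hG₁ q hq.1, show DD V₂ f' q = 0 from hG₂ q hq.2, add_zero]
    have hgm : g ∈ Vge n₀ := Submodule.add_mem _ (opK_mem_Vge hf) (opK_mem_Vge hf')
    obtain ⟨H, hH⟩ := opK_support (κ := ker (Γ.mat T) a L J) (hκ := hMb T) (L := L) hGg
    have s1 := step V₁ (by simp) F G₁ f c hF hG₁ hc hf0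
    have s2 := step V₂ (by simp) F' G₂ f' c hF' hG₂ hc' hf0'
    have hig : Γ.iota a (G₁ ∪ G₂) g = Γ.iota a G₁ (DD V₁ f) + Γ.iota a G₂ (DD V₂ f') := by
      refine Γ.ext_e fun n => ?_
      rw [ContinuousMap.add_apply, Γ.iota_e hGg, Γ.iota_e hG₁, Γ.iota_e hG₂]
      by_cases h : a <:+ n
      · obtain ⟨q, rfl⟩ := h
        rw [embv_append, embv_append, embv_append]; rfl
      · rw [embv_of_not h, embv_of_not h, embv_of_not h, add_zero]
    have hsum : ‖(V₁ (Γ.iota a F f) + V₂ (Γ.iota a F' f')) - Γ.iota a (G₁ ∪ G₂) g‖ ≤ 2 * ε * c := by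
      rw [hig, add_sub_add_comm]
      refine (norm_add_le _ _).trans ?_
      linarith
    have hif : ‖Γ.iota a F f‖ ≤ c := Γ.norm_iota_le hF hc0 hc
    have hif' : ‖Γ.iota a F' f'‖ ≤ c := Γ.norm_iota_le hF' hc0 hc'
    have hVn : ‖V₁ (Γ.iota a F f) + V₂ (Γ.iota a F' f')‖ ≤ (‖V₁‖ + ‖V₂‖) * c := by
      refine (norm_add_le _ _).trans ?_
      rw [add_mul]
      exact add_le_add ((hbd _ _).trans (mul_le_mul_of_nonneg_left hif hV1))
        ((hbd _ _).trans (mul_le_mul_of_nonneg_left hif' hV2))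
    have hgn : ‖Γ.iota a (G₁ ∪ G₂) g‖ ≤ (‖V₁‖ + ‖V₂‖ + 2 * ε) * c := by
      have h1 := norm_sub_norm_le (Γ.iota a (G₁ ∪ G₂) g)
        (V₁ (Γ.iota a F f) + V₂ (Γ.iota a F' f'))
      rw [norm_sub_rev] at h1
      linarith
    have t1 := step T hT' (G₁ ∪ G₂) H g ((‖V₁‖ + ‖V₂‖ + 2 * ε) * c) hGg hH
      (fun q => (Γ.abs_le_norm_iota hGg q).trans hgn) hgm
    have hnorm : ‖T (V₁ (Γ.iota a F f) + V₂ (Γ.iota a F' f')) - Γ.iota a H (DD T g)‖
        ≤ 1 / 2 * c := by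
      have e0 : T (V₁ (Γ.iota a F f) + V₂ (Γ.iota a F' f')) - Γ.iota a H (DD T g)
          = T ((V₁ (Γ.iota a F f) + V₂ (Γ.iota a F' f')) - Γ.iota a (G₁ ∪ G₂) g)
            + (T (Γ.iota a (G₁ ∪ G₂) g) - Γ.iota a H (DD T g)) := by
        rw [map_sub]; abel
      rw [e0]
      have e1 := (hbd T ((V₁ (Γ.iota a F f) + V₂ (Γ.iota a F' f')) - Γ.iota a (G₁ ∪ G₂) g)).trans
        (mul_le_mul_of_nonneg_left hsum hT0)
      refine (norm_add_le _ _).trans ((add_le_add e1 t1).trans ?_)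
      have e4 : ‖T‖ * (2 * ε * c) + ε * ((‖V₁‖ + ‖V₂‖ + 2 * ε) * c)
          = (ε * (2 * ‖T‖ + (‖V₁‖ + ‖V₂‖ + 2 * ε))) * c := by ring
      rw [e4]
      refine mul_le_mul_of_nonneg_right ?_ hc0
      have : ε * (2 * ‖T‖ + (‖V₁‖ + ‖V₂‖ + 2 * ε)) ≤ ε * (2 * C) :=
        mul_le_mul_of_nonneg_left (by rw [hC]; linarith) hε0.le
      linarith
    have := ((T (V₁ (Γ.iota a F f) + V₂ (Γ.iota a F' f')) - Γ.iota a H (DD T g)).norm_coe_le_norm
          (Γ.e (p ++ a))).trans hnorm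
    rw [ContinuousMap.sub_apply, Γ.iota_e hH, embv_append] at this
    exact this
  -- cutting
  have hcutF : ∀ (S : Finset W) (f : V), ∀ q, q ∉ S → cut S f q = 0 := fun S f q hq => by
    rw [cut_apply, if_neg hq]
  have hcutc : ∀ (S : Finset W) (f : V), ∀ q, |cut S f q| ≤ ‖f‖ := fun S f q => by
    rw [cut_apply]
    split_ifs
    · exact abs_apply_le f q
    · simp
  have hcutm : ∀ (S : Finset W) (f : V) (n : ℕ), f ∈ Vge n → cut S f ∈ Vge n := by
    intro S f n hf w hw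
    rw [cut_apply, hf w hw]; simp
  have hcut_eq : ∀ (S : Finset W) (f : V) (q : W), q ∈ S → f q = cut S f q := fun S f q hq => by
    rw [cut_apply, if_pos hq]
  -- bounded versions
  have full1 : ∀ f ∈ Vge (n₀ + L), ∀ p,
      |f p - (DD V₁ (DD U₁ f) p + DD V₂ (DD U₂ f) p)| ≤ 1 / 2 * ‖f‖ := by
    intro f hf p
    let S : Finset W := insert p ((ball L p).biUnion (ball L))
    have hS : ∀ q ∈ ball L p, ∀ r ∈ ball L q, f r = cut S f r := fun q hq r hr =>
      hcut_eq S f r (Finset.mem_insert_of_mem (Finset.mem_biUnion.2 ⟨q, hq, hr⟩))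
    have e1 : DD V₁ (DD U₁ f) p = DD V₁ (DD U₁ (cut S f)) p :=
      opK_congr fun q hq => opK_congr fun r hr => hS q hq r hr
    have e2 : DD V₂ (DD U₂ f) p = DD V₂ (DD U₂ (cut S f)) p :=
      opK_congr fun q hq => opK_congr fun r hr => hS q hq r hr
    rw [e1, e2, hcut_eq S f p (Finset.mem_insert_self _ _)]
    exact comp1 S (cut S f) ‖f‖ (hcutF S f) (hcutc S f) (hcutm S f _ hf) p
  let D : V →L[ℝ] V × V := (DD U₁).prod (DD U₂)
  let E : V × V →L[ℝ] V := (DD V₁).comp (ContinuousLinearMap.fst ℝ V V)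
    + (DD V₂).comp (ContinuousLinearMap.snd ℝ V V)
  have hE : ∀ h : V × V, E h = DD V₁ h.1 + DD V₂ h.2 := fun h => rfl
  have full2 : ∀ h : V × V, h.1 ∈ Vge (n₀ + L) → h.2 ∈ Vge (n₀ + L) →
      ‖D (E h) - h‖ ≤ 1 / 2 * ‖h‖ := by
    intro h h1 h2
    have hn1 : ‖h.1‖ ≤ ‖h‖ := norm_fst_le h
    have hn2 : ‖h.2‖ ≤ ‖h‖ := norm_snd_le h
    have main : ∀ T ∈ ({U₁, U₂} : Finset (X →L[ℝ] X)), ∀ p, ∀ v : ℝ,
        (∀ S : Finset W, p ∈ S → T (V₁ (Γ.iota a S (cut S h.1)) + V₂ (Γ.iota a S (cut S h.2)))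
          (Γ.e (p ++ a)) = v) → |DD T (E h) p - v| ≤ 1 / 2 * ‖h‖ := by
      intro T hT p v hv
      let S : Finset W := insert p ((ball L p).biUnion (ball L))
      have hS : ∀ f : V, ∀ q ∈ ball L p, ∀ r ∈ ball L q, f r = cut S f r := fun f q hq r hr =>
        hcut_eq S f r (Finset.mem_insert_of_mem (Finset.mem_biUnion.2 ⟨q, hq, hr⟩))
      have e1 : DD T (E h) p = DD T (DD V₁ (cut S h.1) + DD V₂ (cut S h.2)) p := by
        refine opK_congr fun q hq => ?_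
        change DD V₁ h.1 q + DD V₂ h.2 q = DD V₁ (cut S h.1) q + DD V₂ (cut S h.2) q
        congr 1
        · exact opK_congr fun r hr => hS _ q hq r hr
        · exact opK_congr fun r hr => hS _ q hq r hr
      rw [e1, abs_sub_comm, ← hv S (Finset.mem_insert_self _ _)]
      exact comp2 T hT S S (cut S h.1) (cut S h.2) ‖h‖ (hcutF S _) (hcutF S _)
        (fun q => (hcutc S _ q).trans hn1) (fun q => (hcutc S _ q).trans hn2)
        (hcutm S _ _ h1) (hcutm S _ _ h2) p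
    rw [Prod.norm_def]
    refine max_le (norm_le_V (by positivity) fun p => ?_) (norm_le_V (by positivity) fun p => ?_)
    · refine main U₁ (by simp) p (h.1 p) fun S hp => ?_
      rw [hUV1, Γ.iota_e (hcutF S h.1), embv_append, cut_apply, if_pos hp]
    · refine main U₂ (by simp) p (h.2 p) fun S hp => ?_
      rw [hUV2, Γ.iota_e (hcutF S h.2), embv_append, cut_apply, if_pos hp]
  -- conclusion
  refine Pool.Agent.Helper93.CK.parity D.toLinearMap (n₀ + L) ?_ ?_ ?_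
  · intro f hf h0
    have h01 : DD U₁ f = 0 := congrArg Prod.fst h0
    have h02 : DD U₂ f = 0 := congrArg Prod.snd h0
    have : ‖f‖ ≤ 1 / 2 * ‖f‖ := by
      refine norm_le_V (by positivity) fun p => ?_
      have := full1 f hf p
      rw [h01, h02, map_zero, map_zero] at this
      simpa using this
    have h3 : ‖f‖ ≤ 0 := by linarith
    exact norm_le_zero_iff.1 h3
  · refine finite_quotient (D := D) (E := E) (n := n₀ + L) (n' := n₀ + L + L) ?_ ?_
    · intro h h1 h2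
      exact Submodule.add_mem _ (opK_mem_Vge (hκ := hMb V₁) h1) (opK_mem_Vge (hκ := hMb V₂) h2)
    · intro h h1 h2
      exact full2 h (fun w hw => h1 w (by omega)) (fun w hw => h2 w (by omega))
  · intro f hf j
    exact Prod.ext (opK_R (hMb U₁) (by omega) hf j) (opK_R (hMb U₂) (by omega) hf j)

/-- `C(K)` is isomorphic to its cube. -/
theorem yes_cube : Nonempty (C(Γ.KK, ℝ) ≃L[ℝ] C(Γ.KK, ℝ) × C(Γ.KK, ℝ) × C(Γ.KK, ℝ)) := by
  obtain ⟨x, hx⟩ := Γ.zero_limit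
  obtain ⟨Ab⟩ := Pool.Agent.Helper58.CK.absorb (fun k => Γ.e (suf 0 k))
    (fun k l h => by simpa using congrArg List.length (Γ.e_injective h))
    (fun k => Γ.isOpen_singleton_e _) x hx
  obtain ⟨Cu⟩ := Pool.Agent.Helper58.CK.cube Γ.S Γ.S_injective
    (fun i => (Γ.isClopen_range_S i).isOpen) (fun i j h => Γ.disjoint_range_S h) (Γ.e [])
    Γ.e_nil_not_mem (Γ.isOpen_singleton_e _) Γ.cover
  let X := C(Γ.KK, ℝ)
  -- X ≃ (X × X × X) × ℝ ≃ (X × ℝ) × X × X ≃ X × X × X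
  let sh1 : ((X × X × X) × ℝ) ≃L[ℝ] ((X × ℝ) × (X × X)) :=
    { toFun := fun p => ((p.1.1, p.2), p.1.2)
      invFun := fun p => ((p.1.1, p.2), p.1.2)
      map_add' := fun _ _ => rfl
      map_smul' := fun _ _ => rfl
      left_inv := fun _ => rfl
      right_inv := fun _ => rfl
      continuous_toFun := by fun_prop
      continuous_invFun := by fun_prop }
  exact ⟨Cu.trans (sh1.trans (Ab.symm.prodCongr (ContinuousLinearEquiv.refl ℝ (X × X))))⟩

end Family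

end Pool.Agent.Helper15.CK
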