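import Pool.Agent.Helper15.CK.Main

set_option autoImplicit false

/-! Powers of `C(K)`: `C(K)^m` and `C(K)^n` are isomorphic if and only if `m` and `n` have the same
parity. -/

open Topology

namespace Pool.Agent.Helper15.CK

section pow

variable {X : Type*} [NormedAddCommGroup X] [NormedSpace ℝ X]

/-- one factor split off -/
noncomputable def consE (X : Type*) [NormedAddCommGroup X] [NormedSpace ℝ X] (n : ℕ) :
    (X × (Fin n → X)) ≃L[ℝ] (Fin (n + 1) → X) :=
  Fin.consEquivL ℝ fun _ : Fin (n + 1) => X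

/-- two equal exponents differing by two -/
lemma pow_step (h : Nonempty (X ≃L[ℝ] X × X × X)) (n : ℕ) :
    Nonempty ((Fin (n + 1) → X) ≃L[ℝ] (Fin (n + 3) → X)) := by
  obtain ⟨U⟩ := h
  let a : (Fin (n + 1) → X) ≃L[ℝ] (X × (Fin n → X)) := (consE X n).symm
  let b : (X × (Fin n → X)) ≃L[ℝ] ((X × X × X) × (Fin n → X)) :=
    U.prodCongr (ContinuousLinearEquiv.refl ℝ _)
  let c : ((X × X × X) × (Fin n → X)) ≃L[ℝ] (X × (X × (X × (Fin n → X)))) :=
    { toFun := fun p => (p.1.1, p.1.2.1, p.1.2.2, p.2)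
      invFun := fun p => ((p.1, p.2.1, p.2.2.1), p.2.2.2)
      map_add' := fun _ _ => rfl
      map_smul' := fun _ _ => rfl
      left_inv := fun _ => rfl
      right_inv := fun _ => rfl
      continuous_toFun := by fun_prop
      continuous_invFun := by fun_prop }
  let d : (X × (X × (X × (Fin n → X)))) ≃L[ℝ] (X × (X × (Fin (n + 1) → X))) :=
    (ContinuousLinearEquiv.refl ℝ X).prodCongr
      ((ContinuousLinearEquiv.refl ℝ X).prodCongr (consE X n))
  let e : (X × (X × (Fin (n + 1) → X))) ≃L[ℝ] (X × (Fin (n + 2) → X)) :=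
    (ContinuousLinearEquiv.refl ℝ X).prodCongr (consE X (n + 1))
  exact ⟨a.trans (b.trans (c.trans (d.trans (e.trans (consE X (n + 2))))))⟩

/-- exponents with the same parity -/
lemma pow_add (h : Nonempty (X ≃L[ℝ] X × X × X)) (n k : ℕ) :
    Nonempty ((Fin (n + 1) → X) ≃L[ℝ] (Fin (n + 1 + 2 * k) → X)) := by
  induction k with
  | zero => exact ⟨ContinuousLinearEquiv.refl ℝ _⟩
  | succ k ih =>
    obtain ⟨e⟩ := ih
    obtain ⟨f⟩ := pow_step h (n + 2 * k)
    have h1 : n + 2 * k + 1 = n + 1 + 2 * k := by omega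
    have h2 : n + 2 * k + 3 = n + 1 + 2 * (k + 1) := by omega
    rw [h1, h2] at f
    exact ⟨e.trans f⟩

lemma pow_one : Nonempty ((Fin 1 → X) ≃L[ℝ] X) :=
  ⟨ContinuousLinearEquiv.funUnique (Fin 1) ℝ X⟩

lemma pow_two : Nonempty ((Fin 2 → X) ≃L[ℝ] X × X) := by
  obtain ⟨e⟩ := pow_one (X := X)
  exact ⟨(consE X 1).symm.trans ((ContinuousLinearEquiv.refl ℝ X).prodCongr e)⟩

lemma pow_iff (h3 : Nonempty (X ≃L[ℝ] X × X × X)) (h2 : IsEmpty (X ≃L[ℝ] X × X)) {m n : ℕ}
    (hm : 1 ≤ m) (hn : 1 ≤ n) :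
    Nonempty ((Fin m → X) ≃L[ℝ] (Fin n → X)) ↔ m ≡ n [MOD 2] := by
  -- reduce to exponent 1 or 2
  have red : ∀ k : ℕ, 1 ≤ k → (k % 2 = 1 → Nonempty ((Fin k → X) ≃L[ℝ] X)) ∧
      (k % 2 = 0 → Nonempty ((Fin k → X) ≃L[ℝ] X × X)) := by
    intro k hk
    constructor
    · intro hk2
      obtain ⟨e⟩ := pow_add h3 0 (k / 2)
      have h4 : 0 + 1 + 2 * (k / 2) = k := by omega
      rw [h4] at e
      obtain ⟨f⟩ := pow_one (X := X)
      exact ⟨e.symm.trans f⟩
    · intro hk2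
      obtain ⟨e⟩ := pow_add h3 1 (k / 2 - 1)
      have h4 : 1 + 1 + 2 * (k / 2 - 1) = k := by omega
      rw [h4] at e
      obtain ⟨f⟩ := pow_two (X := X)
      exact ⟨e.symm.trans f⟩
  have hmod : ∀ k : ℕ, k % 2 = 0 ∨ k % 2 = 1 := fun k => by omega
  constructor
  · rintro ⟨e⟩
    unfold Nat.ModEq
    rcases hmod m with h | h <;> rcases hmod n with h' | h'
    · omega
    · obtain ⟨f⟩ := (red m hm).2 h
      obtain ⟨g⟩ := (red n hn).1 h'
      exact (h2.false (g.symm.trans (e.symm.trans f))).elim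
    · obtain ⟨f⟩ := (red m hm).1 h
      obtain ⟨g⟩ := (red n hn).2 h'
      exact (h2.false (f.symm.trans (e.trans g))).elim
    · omega
  · intro hmn
    unfold Nat.ModEq at hmn
    rcases hmod m with h | h
    · obtain ⟨f⟩ := (red m hm).2 h
      obtain ⟨g⟩ := (red n hn).2 (by omega)
      exact ⟨f.trans g.symm⟩
    · obtain ⟨f⟩ := (red m hm).1 h
      obtain ⟨g⟩ := (red n hn).1 (by omega)
      exact ⟨f.trans g.symm⟩

end pow

namespace Family

variable (Γ : Family)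

/-- countably many isolated points are dense -/
lemma isolated_dense : ∃ D : Set Γ.KK, D.Countable ∧ Dense D ∧ ∀ x ∈ D, IsOpen ({x} : Set Γ.KK) := by
  refine ⟨Set.range Γ.e, Set.countable_range _, Γ.denseRange_e, ?_⟩
  rintro _ ⟨n, rfl⟩
  exact Γ.isOpen_singleton_e n

end Family

end Pool.Agent.Helper15.CK
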