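import Pool.Agent.Helper15.CK.Kill

set_option autoImplicit false

/-! The transfinite recursion producing the family of sets. -/

open Filter Topology Cardinal

namespace Pool.Agent.Helper15.CK

/-- Stages of the recursion: a matrix together with a real label. -/
abbrev Idx := (W → W → ℝ) × ℝ

lemma mk_Idx_le : #Idx ≤ 𝔠 := by
  have h1 : #W = ℵ₀ := by simp
  have h2 : #(W → ℝ) = 𝔠 := by
    rw [← Cardinal.power_def, h1, Cardinal.mk_real, continuum_power_aleph0]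
  have h3 : #(W → W → ℝ) = 𝔠 := by
    rw [← Cardinal.power_def, h1, h2, continuum_power_aleph0]
  rw [Cardinal.mk_prod, Cardinal.lift_id, Cardinal.lift_id, h3, Cardinal.mk_real, continuum_mul_self]

/-- Branches used before stage `ζ`. -/
def used (r : Idx → Idx → Prop) (D : Idx → Option Data) (ζ : Idx) : Set Br :=
  {c | c = 0 ∨ ∃ ξ, r ξ ζ ∧ ∃ d, D ξ = some d ∧ (c = d.α ∨ c = d.β)}

/-- Sets chosen before stage `ζ`, with their limits. -/
def fam (r : Idx → Idx → Prop) (D : Idx → Option Data) (ζ : Idx) : Set (Br × Set W) :=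
  {p | ∃ ξ, r ξ ζ ∧ ∃ d, D ξ = some d ∧ p = (d.α, d.A)}

/-- The output of the recursion. -/
structure Family where
  r : Idx → Idx → Prop
  wo : IsWellOrder Idx r
  D : Idx → Option Data
  card_lt : ∀ ζ, #{ξ // r ξ ζ} < 𝔠
  cert : ∀ ζ d, D ζ = some d → IsCert ζ.1 (used r D ζ) (fam r D ζ) d
  none_cert : ∀ ζ, D ζ = none → ¬ ∃ d, IsCert ζ.1 (used r D ζ) (fam r D ζ) d

open Classical in
theorem nonempty_family : Nonempty Family := by
  obtain ⟨r, wo, hr⟩ := Cardinal.exists_ord_eq Idx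
  have wf : WellFounded r := wo.wf
  let step : (ζ : Idx) → ((ξ : Idx) → r ξ ζ → Option Data) → Option Data := fun ζ f =>
    if h : ∃ d, IsCert ζ.1 {c | c = 0 ∨ ∃ ξ, ∃ h : r ξ ζ, ∃ d, f ξ h = some d ∧ (c = d.α ∨ c = d.β)}
      {p | ∃ ξ, ∃ h : r ξ ζ, ∃ d, f ξ h = some d ∧ p = (d.α, d.A)} d
    then some h.choose else none
  let D : Idx → Option Data := wf.fix step
  have hD : ∀ ζ, D ζ = if h : ∃ d, IsCert ζ.1 (used r D ζ) (fam r D ζ) d then some h.choose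
      else none := by
    intro ζ
    have h1 : D ζ = step ζ (fun ξ _ => D ξ) := wf.fix_eq step ζ
    rw [h1]
    have e1 : {c | c = 0 ∨ ∃ ξ, ∃ _ : r ξ ζ, ∃ d, D ξ = some d ∧ (c = d.α ∨ c = d.β)}
        = used r D ζ := by
      ext c; simp [used]
    have e2 : {p : Br × Set W | ∃ ξ, ∃ _ : r ξ ζ, ∃ d, D ξ = some d ∧ p = (d.α, d.A)}
        = fam r D ζ := by
      ext p; simp [fam]
    simp only [step, e1, e2]
  refine ⟨⟨r, wo, D, ?_, ?_, ?_⟩⟩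
  · intro ζ
    have := Cardinal.card_typein_lt (r := r) ζ hr
    rw [Ordinal.card_typein] at this
    exact this.trans_le mk_Idx_le
  · intro ζ d hd
    rw [hD ζ] at hd
    split_ifs at hd with h
    rw [← Option.some.inj hd]
    exact h.choose_spec
  · intro ζ hn
    rw [hD ζ] at hn
    split_ifs at hn with h
    exact h

namespace Family

variable (Γ : Family)

/-- Branches used before stage `ζ`. -/
def U (ζ : Idx) : Set Br := used Γ.r Γ.D ζ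

lemma zero_mem_U (ζ : Idx) : (0 : Br) ∈ Γ.U ζ := Or.inl rfl

lemma α_mem_U {ξ ζ : Idx} (h : Γ.r ξ ζ) {d : Data} (hd : Γ.D ξ = some d) : d.α ∈ Γ.U ζ :=
  Or.inr ⟨ξ, h, d, hd, Or.inl rfl⟩

lemma β_mem_U {ξ ζ : Idx} (h : Γ.r ξ ζ) {d : Data} (hd : Γ.D ξ = some d) : d.β ∈ Γ.U ζ :=
  Or.inr ⟨ξ, h, d, hd, Or.inr rfl⟩

lemma α_inj {ξ ζ : Idx} {d d' : Data} (hd : Γ.D ξ = some d) (hd' : Γ.D ζ = some d')
    (h : d.α = d'.α) : ξ = ζ := by
  have := Γ.wo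
  rcases (trichotomous_of Γ.r ξ ζ) with h1 | h1 | h1
  · exact absurd (h ▸ Γ.α_mem_U h1 hd) (Γ.cert _ _ hd').hα
  · exact h1
  · exact absurd (h ▸ Γ.α_mem_U h1 hd') (Γ.cert _ _ hd).hα

lemma α_ne_zero {ζ : Idx} {d : Data} (hd : Γ.D ζ = some d) : d.α ≠ 0 := fun h =>
  (Γ.cert _ _ hd).hα (h ▸ Γ.zero_mem_U ζ)

lemma mk_U_lt (ζ : Idx) : #(Γ.U ζ) < 𝔠 := by
  have hsub : Γ.U ζ ⊆ {0} ∪ ((Set.range fun ξ : {ξ // Γ.r ξ ζ} =>
      match Γ.D ξ with | some d => d.α | none => 0) ∪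
      (Set.range fun ξ : {ξ // Γ.r ξ ζ} => match Γ.D ξ with | some d => d.β | none => 0)) := by
    rintro c (h | ⟨ξ, hξ, d, hd, h | h⟩)
    · exact Or.inl h
    · exact Or.inr (Or.inl ⟨⟨ξ, hξ⟩, by simp [hd, h]⟩)
    · exact Or.inr (Or.inr ⟨⟨ξ, hξ⟩, by simp [hd, h]⟩)
  refine (Cardinal.mk_le_mk_of_subset hsub).trans_lt ?_
  refine (Cardinal.mk_union_le _ _).trans_lt ?_
  refine Cardinal.add_lt_of_lt aleph0_le_continuum ?_ ?_
  · rw [Cardinal.mk_singleton]; exact one_lt_aleph0.trans aleph0_lt_continuum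
  · refine (Cardinal.mk_union_le _ _).trans_lt ?_
    refine Cardinal.add_lt_of_lt aleph0_le_continuum ?_ ?_
    · exact Cardinal.mk_range_le.trans_lt (Γ.card_lt ζ)
    · exact Cardinal.mk_range_le.trans_lt (Γ.card_lt ζ)

/-- If nothing was chosen at stage `ζ = (t, η)`, then `t` is well behaved near every unused branch. -/
lemma good_of_none {ζ : Idx} (hζ : Γ.D ζ = none) {M : ℝ}
    (hrow : ∀ n, ∀ F : Finset W, ∑ m ∈ F, |ζ.1 n m| ≤ M) {α : Br} (hα : α ∉ Γ.U ζ) :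
    G1 ζ.1 α ∧ G2 ζ.1 α := by
  have hF : ∀ p ∈ fam Γ.r Γ.D ζ, Conv p.2 p.1 := by
    rintro p ⟨ξ, -, d, hd, rfl⟩
    exact (Γ.cert _ _ hd).hA
  have hFi : ∀ p ∈ fam Γ.r Γ.D ζ, ∀ q ∈ fam Γ.r Γ.D ζ, p.1 = q.1 → p = q := by
    rintro p ⟨ξ, -, d, hd, rfl⟩ q ⟨ξ', -, d', hd', rfl⟩ h
    have := Γ.α_inj hd hd' h
    subst this
    rw [hd] at hd'
    rw [Option.some.inj hd']
  have hFU : ∀ p ∈ fam Γ.r Γ.D ζ, p.1 ∈ used Γ.r Γ.D ζ := by
    rintro p ⟨ξ, hξ, d, hd, rfl⟩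
    exact Γ.α_mem_U hξ hd
  constructor
  · by_contra h
    exact Γ.none_cert ζ hζ (kill1 hrow hF hFi hα h)
  · by_contra h
    exact Γ.none_cert ζ hζ (kill2 hrow hF hFU hα h)

end Family

end Pool.Agent.Helper15.CK
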