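import Pool.Agent.Helper15.CK.Rec

set_option autoImplicit false

/-! The compact space. -/

open Filter Topology Cardinal

namespace Pool.Agent.Helper15.CK

/-- cylinder -/
def cyl (μ : W) : Set W := {w | μ <+: w}

/-- preimage and image of a set under `w ↦ i :: w` -/
def pre (i : Fin 3) (B : Set W) : Set W := {w | i :: w ∈ B}
def img (i : Fin 3) (B : Set W) : Set W := {w | ∃ v ∈ B, w = i :: v}

lemma pre_img (i : Fin 3) (B : Set W) : pre i (img i B) = B := by
  ext w; simp [pre, img]

namespace Family

variable (Γ : Family)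

/-- generating sets -/
inductive Gen : Set W → Prop
  | cyl (μ : W) : Gen (cyl μ)
  | single (m : W) : Gen {m}
  | empty : Gen ∅
  | sh (ζ : Idx) (d : Data) (hd : Γ.D ζ = some d) (μ ν : W) : Gen (sh μ ν d.A)

lemma gen_pre (i : Fin 3) {B : Set W} (hB : Γ.Gen B) : Γ.Gen (pre i B) := by
  cases hB with
  | cyl μ =>
    cases μ with
    | nil =>
      have : pre i (CK.cyl []) = CK.cyl [] := by ext w; simp [pre, CK.cyl]
      rw [this]; exact Gen.cyl _
    | cons j μ =>
      by_cases hij : j = i
      · subst hij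
        have : pre j (CK.cyl (j :: μ)) = CK.cyl μ := by
          ext w; simp [pre, CK.cyl, List.cons_prefix_cons]
        rw [this]; exact Gen.cyl _
      · have : pre i (CK.cyl (j :: μ)) = ∅ := by
          ext w; simp [pre, CK.cyl, List.cons_prefix_cons, hij]
        rw [this]; exact Gen.empty
  | single m =>
    cases m with
    | nil =>
      have : pre i {([] : W)} = ∅ := by ext w; simp [pre]
      rw [this]; exact Gen.empty
    | cons j m =>
      by_cases hij : i = j
      · subst hij
        have : pre i {i :: m} = {m} := by ext w; simp [pre]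
        rw [this]; exact Gen.single _
      · have : pre i {j :: m} = ∅ := by ext w; simp [pre, hij]
        rw [this]; exact Gen.empty
  | empty =>
    have : pre i ∅ = ∅ := by ext w; simp [pre]
    rw [this]; exact Gen.empty
  | sh ζ d hd μ ν =>
    cases μ with
    | nil =>
      have : pre i (CK.sh [] ν d.A) = CK.sh [] (ν ++ [i]) d.A := by
        ext w; simp [pre, CK.sh]
      rw [this]; exact Gen.sh ζ d hd _ _
    | cons j μ =>
      by_cases hij : i = j
      · subst hij
        have : pre i (CK.sh (i :: μ) ν d.A) = CK.sh μ ν d.A := by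
          ext w; simp [pre, CK.sh]
        rw [this]; exact Gen.sh ζ d hd _ _
      · have : pre i (CK.sh (j :: μ) ν d.A) = ∅ := by
          ext w; simp [pre, CK.sh, hij]
        rw [this]; exact Gen.empty

lemma gen_img (i : Fin 3) {B : Set W} (hB : Γ.Gen B) : Γ.Gen (img i B) := by
  cases hB with
  | cyl μ =>
    have : img i (CK.cyl μ) = CK.cyl (i :: μ) := by
      ext w
      constructor
      · rintro ⟨v, hv, rfl⟩; exact (List.cons_prefix_cons).2 ⟨rfl, hv⟩
      · rintro h
        cases w with
        | nil => simp [CK.cyl] at h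
        | cons j w =>
          obtain ⟨h1, h2⟩ := List.cons_prefix_cons.1 h
          exact ⟨w, h2, by rw [h1]⟩
    rw [this]; exact Gen.cyl _
  | single m =>
    have : img i {m} = {i :: m} := by ext w; simp [img]
    rw [this]; exact Gen.single _
  | empty =>
    have : img i ∅ = ∅ := by ext w; simp [img]
    rw [this]; exact Gen.empty
  | sh ζ d hd μ ν =>
    have : img i (CK.sh μ ν d.A) = CK.sh (i :: μ) ν d.A := by
      ext w
      constructor
      · rintro ⟨v, ⟨u, rfl, hu⟩, rfl⟩; exact ⟨u, rfl, hu⟩
      · rintro ⟨u, rfl, hu⟩; exact ⟨μ ++ u, ⟨u, rfl, hu⟩, rfl⟩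
    rw [this]; exact Gen.sh ζ d hd _ _

open Classical in
/-- evaluation vector of a word -/
noncomputable def emb (n : W) : {B // Γ.Gen B} → Bool := fun B => decide (n ∈ B.1)

/-- The compact space. -/
def KK : Set ({B // Γ.Gen B} → Bool) := closure (Set.range Γ.emb)

instance : CompactSpace Γ.KK := isCompact_iff_compactSpace.1 isClosed_closure.isCompact

/-- The point of a word. -/
noncomputable def e (n : W) : Γ.KK := ⟨Γ.emb n, subset_closure ⟨n, rfl⟩⟩

lemma denseRange_e : DenseRange Γ.e := by
  rintro ⟨y, hy⟩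
  rw [closure_subtype]
  have : (Subtype.val '' Set.range Γ.e) = Set.range Γ.emb := by
    rw [← Set.range_comp]; rfl
  rw [this]; exact hy

/-- the value of a point on a generating set -/
def ev {B : Set W} (hB : Γ.Gen B) (y : Γ.KK) : Bool := y.1 ⟨B, hB⟩

lemma continuous_ev {B : Set W} (hB : Γ.Gen B) : Continuous (Γ.ev hB) :=
  (continuous_apply _).comp continuous_subtype_val

@[simp] lemma ev_e {B : Set W} (hB : Γ.Gen B) (n : W) : Γ.ev hB (Γ.e n) = true ↔ n ∈ B := by
  simp [ev, e, emb]

@[simp] lemma ev_e' {B : Set W} (hB : Γ.Gen B) (n : W) : Γ.ev hB (Γ.e n) = false ↔ n ∉ B := by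
  simp [ev, e, emb]

lemma ext_ev {y y' : Γ.KK} (h : ∀ B (hB : Γ.Gen B), Γ.ev hB y = Γ.ev hB y') : y = y' := by
  apply Subtype.ext
  funext B
  exact h B.1 B.2

/-- closed predicates that hold at words hold everywhere -/
lemma induction_e {p : Γ.KK → Prop} (hp : IsClosed {y | p y}) (h : ∀ n, p (Γ.e n)) (y : Γ.KK) :
    p y := Γ.denseRange_e.induction_on y hp h

lemma isClopen_ev {B : Set W} (hB : Γ.Gen B) : IsClopen {y | Γ.ev hB y = true} :=
  (isClopen_discrete ({true} : Set Bool)).preimage (Γ.continuous_ev hB)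

/-- points of singletons are isolated -/
lemma eq_e_of_ev {m : W} {y : Γ.KK} (h : Γ.ev (Gen.single m) y = true) : y = Γ.e m := by
  refine Γ.ext_ev fun B hB => ?_
  have : ∀ y : Γ.KK, (Γ.ev (Gen.single m) y = false ∨ Γ.ev hB y = Γ.ev hB (Γ.e m)) := by
    refine Γ.induction_e ?_ ?_
    · refine IsClosed.union ?_ ?_
      · exact isClosed_singleton.preimage (Γ.continuous_ev _)
      · exact isClosed_singleton.preimage (Γ.continuous_ev _)
    · intro n
      by_cases hn : n = m
      · right; rw [hn]
      · left; rw [ev_e']; simpa using hn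
  rcases this y with h' | h'
  · rw [h] at h'; exact absurd h' (by simp)
  · exact h'

lemma singleton_e (m : W) : ({Γ.e m} : Set Γ.KK) = {y | Γ.ev (Gen.single m) y = true} := by
  ext y
  constructor
  · rintro rfl; simp
  · exact fun h => Γ.eq_e_of_ev h

lemma isOpen_singleton_e (m : W) : IsOpen ({Γ.e m} : Set Γ.KK) := by
  rw [singleton_e]; exact (Γ.isClopen_ev _).isOpen

lemma e_injective : Function.Injective Γ.e := by
  intro m n h
  have : Γ.ev (Gen.single n) (Γ.e m) = true := by rw [h]; simp
  simpa using this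

/-- A word sequence on which all generating sets are eventually decided converges. -/
lemma exists_limit {n : ℕ → W} (h : ∀ B, Γ.Gen B → Dec fun k => n k ∈ B) :
    ∃ y, Tendsto (fun k => Γ.e (n k)) atTop (𝓝 y) := by
  classical
  let y : {B // Γ.Gen B} → Bool := fun B => decide (∀ᶠ k in atTop, n k ∈ B.1)
  have hlim : Tendsto (fun k => Γ.emb (n k)) atTop (𝓝 y) := by
    rw [tendsto_pi_nhds]
    intro B
    rw [nhds_discrete, tendsto_pure]
    rcases h B.1 B.2 with h1 | h1
    · filter_upwards [h1] with k hk
      exact decide_eq_decide.2 (iff_of_true hk h1)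
    · have h2 : ¬ ∀ᶠ k in atTop, n k ∈ B.1 := by
        intro h2
        obtain ⟨k, hk1, hk2⟩ := (h1.and h2).exists
        exact hk1 hk2
      filter_upwards [h1] with k hk
      exact decide_eq_decide.2 (iff_of_false hk h2)
  have hy : y ∈ Γ.KK := mem_closure_of_tendsto hlim (Eventually.of_forall fun k => ⟨_, rfl⟩)
  refine ⟨⟨y, hy⟩, ?_⟩
  rw [tendsto_subtype_rng]
  exact hlim

lemma dec_single {n : ℕ → W} (hn : Tendsto (fun k => (n k).length) atTop atTop) (m : W) :
    Dec fun k => n k ∈ ({m} : Set W) := by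
  right
  filter_upwards [hn.eventually_gt_atTop m.length] with k hk h
  rw [Set.mem_singleton_iff.1 h] at hk
  omega

/-- The sequence of a certificate converges in the space. -/
lemma cert_limit {ζ : Idx} {d : Data} (hd : Γ.D ζ = some d) :
    ∃ y, Tendsto (fun k => Γ.e (d.n k)) atTop (𝓝 y) := by
  have hc := Γ.cert _ _ hd
  refine Γ.exists_limit fun B hB => ?_
  cases hB with
  | cyl μ => exact hc.hcyl μ
  | single m => exact dec_single hc.hlen m
  | empty => exact (Dec.const False).congr (Eventually.of_forall fun k => by simp)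
  | sh ξ d' hd' μ ν =>
    have := Γ.wo
    rcases (trichotomous_of Γ.r ξ ζ) with h | h | h
    · exact hc.hF _ ⟨ξ, h, d', hd', rfl⟩ μ ν
    · subst h
      rw [hd] at hd'
      rw [← Option.some.inj hd']
      exact hc.hself μ ν
    · right
      refine eventually_not_mem_sh (Γ.cert _ _ hd').hA ?_ hc.hlen hc.hβ μ ν
      intro h'
      exact (Γ.cert _ _ hd').hα (h' ▸ Γ.β_mem_U h hd)

/-- The words `0^k` converge. -/
lemma zero_limit : ∃ y, Tendsto (fun k => Γ.e (suf 0 k)) atTop (𝓝 y) := by
  have hlen : Tendsto (fun k => (suf 0 k).length) atTop atTop := by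
    simp only [length_suf]; exact tendsto_id
  have hsuf : ∀ j, ∀ᶠ k in atTop, suf 0 j <:+ suf 0 k := fun j =>
    (eventually_ge_atTop j).mono fun k hk => suf_suffix_suf 0 hk
  have hrep : ∀ k, suf 0 k = List.replicate k 0 := by
    intro k
    induction k with
    | zero => rfl
    | succ k ih => rw [suf_succ, ih]; rfl
  refine Γ.exists_limit fun B hB => ?_
  cases hB with
  | cyl μ =>
    by_cases hμ : μ = List.replicate μ.length 0
    · left
      filter_upwards [eventually_ge_atTop μ.length] with k hk
      change μ <+: suf 0 k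
      rw [hrep, hμ]
      refine ⟨List.replicate (k - μ.length) 0, ?_⟩
      rw [List.replicate_append_replicate]
      congr 1
      omega
    · right
      refine Eventually.of_forall fun k h => hμ ?_
      change μ <+: suf 0 k at h
      rw [hrep] at h
      refine List.eq_replicate_of_mem fun b hb => ?_
      exact List.eq_of_mem_replicate (h.subset hb)
  | single m => exact dec_single hlen m
  | empty => exact (Dec.const False).congr (Eventually.of_forall fun k => by simp)
  | sh ξ d' hd' μ ν =>
    right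
    exact eventually_not_mem_sh (Γ.cert _ _ hd').hA (Γ.α_ne_zero hd') hlen hsuf μ ν

/-! ### Self-similarity -/

/-- the extension of `w ↦ i :: w` -/
noncomputable def S (i : Fin 3) : C(Γ.KK, Γ.KK) where
  toFun y := ⟨fun B => y.1 ⟨pre i B.1, Γ.gen_pre i B.2⟩, by
    have hc : Continuous (fun (y : {B // Γ.Gen B} → Bool) (B : {B // Γ.Gen B}) =>
        y ⟨pre i B.1, Γ.gen_pre i B.2⟩) := continuous_pi fun B => continuous_apply _
    refine map_mem_closure hc y.2 ?_
    rintro _ ⟨n, rfl⟩
    refine ⟨i :: n, ?_⟩
    funext B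
    exact decide_eq_decide.2 Iff.rfl⟩
  continuous_toFun := by
    refine Continuous.subtype_mk ?_ _
    exact continuous_pi fun B => (continuous_apply _).comp continuous_subtype_val

lemma ev_S (i : Fin 3) {B : Set W} (hB : Γ.Gen B) (y : Γ.KK) :
    Γ.ev hB (Γ.S i y) = Γ.ev (Γ.gen_pre i hB) y := rfl

@[simp] lemma S_e (i : Fin 3) (n : W) : Γ.S i (Γ.e n) = Γ.e (i :: n) := by
  refine Γ.ext_ev fun B hB => ?_
  rw [ev_S]
  by_cases h : i :: n ∈ B
  · rw [(Γ.ev_e _ _).2 h, (Γ.ev_e _ _).2]; exact h
  · rw [(Γ.ev_e' _ _).2 h, (Γ.ev_e' _ _).2]; exact h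

lemma ev_congr {B B' : Set W} (h : B = B') (hB : Γ.Gen B) (hB' : Γ.Gen B') (y : Γ.KK) :
    Γ.ev hB y = Γ.ev hB' y := by
  subst h; rfl

lemma S_injective (i : Fin 3) : Function.Injective (Γ.S i) := by
  intro y y' h
  refine Γ.ext_ev fun B hB => ?_
  have h1 := congrArg (Γ.ev (Γ.gen_img i hB)) h
  rw [ev_S, ev_S, Γ.ev_congr (pre_img i B) _ hB, Γ.ev_congr (pre_img i B) _ hB] at h1
  exact h1

/-- the inverse of `S i`, defined everywhere with values in the product -/
def Ri (i : Fin 3) (y : Γ.KK) : {B // Γ.Gen B} → Bool := fun B => y.1 ⟨img i B.1, Γ.gen_img i B.2⟩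

lemma continuous_Ri (i : Fin 3) : Continuous (Γ.Ri i) :=
  continuous_pi fun _ => (continuous_apply _).comp continuous_subtype_val

lemma range_S (i : Fin 3) : Set.range (Γ.S i) = {y | Γ.ev (Gen.cyl [i]) y = true} := by
  apply Set.Subset.antisymm
  · rintro _ ⟨y, rfl⟩
    change Γ.ev (Gen.cyl [i]) (Γ.S i y) = true
    revert y
    refine Γ.induction_e ?_ ?_
    · exact isClosed_singleton.preimage ((Γ.continuous_ev _).comp (Γ.S i).continuous)
    · intro n
      rw [S_e, ev_e]
      exact (List.cons_prefix_cons).2 ⟨rfl, List.nil_prefix⟩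
  · intro y hy
    have h1 : ∀ y : Γ.KK, Γ.ev (Gen.cyl [i]) y = false ∨
        ∃ h : Γ.Ri i y ∈ Γ.KK, Γ.S i ⟨Γ.Ri i y, h⟩ = y := by
      have h2 : ∀ y : Γ.KK, Γ.ev (Gen.cyl [i]) y = false ∨
          (Γ.Ri i y ∈ Γ.KK ∧ (fun B : {B // Γ.Gen B} => Γ.Ri i y ⟨pre i B.1, Γ.gen_pre i B.2⟩)
            = y.1) := by
        refine Γ.induction_e ?_ ?_
        · refine IsClosed.union (isClosed_singleton.preimage (Γ.continuous_ev _)) ?_
          refine IsClosed.inter ?_ ?_
          · exact isClosed_closure.preimage (Γ.continuous_Ri i)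
          · exact isClosed_eq (continuous_pi fun B =>
              (continuous_apply (⟨pre i B.1, Γ.gen_pre i B.2⟩ : {B // Γ.Gen B})).comp
                (Γ.continuous_Ri i)) continuous_subtype_val
        · intro n
          cases n with
          | nil => left; rw [ev_e']; simp [CK.cyl]
          | cons j n =>
            by_cases hij : j = i
            · right
              subst hij
              refine ⟨subset_closure ⟨n, ?_⟩, ?_⟩
              · funext B
                simp [Ri, e, emb, img]
              · funext B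
                simp [Ri, e, emb, img, pre]
            · left; rw [ev_e']
              simp only [CK.cyl, Set.mem_ofPred_eq, List.cons_prefix_cons]
              exact fun h => hij h.1.symm
      intro y
      rcases h2 y with h | ⟨h, h'⟩
      · exact Or.inl h
      · exact Or.inr ⟨h, Subtype.ext h'⟩
    rcases h1 y with h | ⟨h, h'⟩
    · rw [show Γ.ev (Gen.cyl [i]) y = true from hy] at h; exact absurd h (by simp)
    · exact ⟨_, h'⟩

lemma isClopen_range_S (i : Fin 3) : IsClopen (Set.range (Γ.S i)) := by
  rw [range_S]; exact Γ.isClopen_ev _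

lemma disjoint_range_S {i j : Fin 3} (h : i ≠ j) :
    Disjoint (Set.range (Γ.S i)) (Set.range (Γ.S j)) := by
  rw [Set.disjoint_left]
  intro y hi hj
  rw [range_S] at hi hj
  have : ∀ y : Γ.KK, Γ.ev (Gen.cyl [i]) y = false ∨ Γ.ev (Gen.cyl [j]) y = false := by
    refine Γ.induction_e ?_ ?_
    · exact (isClosed_singleton.preimage (Γ.continuous_ev _)).union
        (isClosed_singleton.preimage (Γ.continuous_ev _))
    · intro n
      by_cases hn : n ∈ CK.cyl [i]
      · right
        rw [ev_e']
        intro hn'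
        cases n with
        | nil => simp [CK.cyl] at hn
        | cons l n =>
          simp only [CK.cyl, Set.mem_ofPred_eq, List.cons_prefix_cons] at hn hn'
          exact h (hn.1.trans hn'.1.symm)
      · left; rw [ev_e']; exact hn
  rcases this y with h' | h'
  · rw [show Γ.ev (Gen.cyl [i]) y = true from hi] at h'; exact absurd h' (by simp)
  · rw [show Γ.ev (Gen.cyl [j]) y = true from hj] at h'; exact absurd h' (by simp)

lemma e_nil_not_mem (i : Fin 3) : Γ.e [] ∉ Set.range (Γ.S i) := by
  rw [range_S]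
  intro h
  have h' : ([] : W) ∈ CK.cyl [i] := (Γ.ev_e _ _).1 h
  simp [CK.cyl] at h'

lemma cover (y : Γ.KK) : y = Γ.e [] ∨ ∃ i, y ∈ Set.range (Γ.S i) := by
  revert y
  refine Γ.induction_e ?_ ?_
  · have : {y | y = Γ.e [] ∨ ∃ i, y ∈ Set.range (Γ.S i)} = {Γ.e []} ∪ ⋃ i, Set.range (Γ.S i) := by
      ext y; simp
    rw [this]
    exact isClosed_singleton.union (isClosed_iUnion_of_finite fun i => (Γ.isClopen_range_S i).isClosed)
  · intro n
    cases n with
    | nil => left; rfl
    | cons i n => right; exact ⟨i, Γ.e n, by simp⟩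

end Family

end Pool.Agent.Helper15.CK
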