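import Pool.Agent.Helper15.CK.Words

set_option autoImplicit false

/-! Subsequences and sparse selections. -/

open Filter Topology

namespace Pool.Agent.Helper15.CK

/-- A predicate along a sequence is eventually decided. -/
def Dec (P : ℕ → Prop) : Prop := (∀ᶠ k in atTop, P k) ∨ (∀ᶠ k in atTop, ¬ P k)

lemma Dec.comp {P : ℕ → Prop} (h : Dec P) {φ : ℕ → ℕ} (hφ : StrictMono φ) :
    Dec (fun k => P (φ k)) := by
  rcases h with h | h
  · exact Or.inl (hφ.tendsto_atTop.eventually h)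
  · exact Or.inr (hφ.tendsto_atTop.eventually h)

lemma Dec.congr {P Q : ℕ → Prop} (h : Dec P) (hPQ : ∀ᶠ k in atTop, (P k ↔ Q k)) : Dec Q := by
  rcases h with h | h
  · exact Or.inl (by filter_upwards [h, hPQ] with k h1 h2 using h2.1 h1)
  · exact Or.inr (by filter_upwards [h, hPQ] with k h1 h2 using fun h3 => h1 (h2.2 h3))

lemma Dec.const (p : Prop) : Dec (fun _ => p) := by
  by_cases h : p
  · exact Or.inl (Eventually.of_forall fun _ => h)
  · exact Or.inr (Eventually.of_forall fun _ => h)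

lemma Dec.or {P Q : ℕ → Prop} (hP : Dec P) (hQ : Dec Q) : Dec (fun k => P k ∨ Q k) := by
  rcases hP with h | h
  · exact Or.inl (h.mono fun _ h => Or.inl h)
  · rcases hQ with h' | h'
    · exact Or.inl (h'.mono fun _ h => Or.inr h)
    · exact Or.inr (by filter_upwards [h, h'] with k h1 h2 using not_or.2 ⟨h1, h2⟩)

lemma Dec.and {P Q : ℕ → Prop} (hP : Dec P) (hQ : Dec Q) : Dec (fun k => P k ∧ Q k) := by
  rcases hP with h | h
  · rcases hQ with h' | h'
    · exact Or.inl (by filter_upwards [h, h'] with k h1 h2 using ⟨h1, h2⟩)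
    · exact Or.inr (h'.mono fun _ h h3 => h h3.2)
  · exact Or.inr (h.mono fun _ h h3 => h h3.1)

/-- Countably many bounded real sequences have a common subsequence along which all converge. -/
lemma exists_subseq_tendsto {ι : Type} [Countable ι] (h : ι → ℕ → ℝ)
    (hb : ∀ i, ∃ C, ∀ k, |h i k| ≤ C) :
    ∃ φ : ℕ → ℕ, StrictMono φ ∧ ∀ i, ∃ l, Tendsto (fun k => h i (φ k)) atTop (𝓝 l) := by
  choose C hC using hb
  have hK : IsCompact (Set.pi Set.univ fun i => Set.Icc (-C i) (C i)) :=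
    isCompact_univ_pi fun i => isCompact_Icc
  obtain ⟨a, -, φ, hφ, hlim⟩ := hK.tendsto_subseq (x := fun k i => h i k)
    (fun k i _ => abs_le.1 (hC i k))
  refine ⟨φ, hφ, fun i => ⟨a i, ?_⟩⟩
  exact (tendsto_pi_nhds.1 hlim) i

/-- Countably many predicates and bounded real sequences. -/
lemma exists_subseq {ι κ : Type} [Countable ι] [Countable κ] (P : ι → ℕ → Prop) (h : κ → ℕ → ℝ)
    (hb : ∀ i, ∃ C, ∀ k, |h i k| ≤ C) :
    ∃ φ : ℕ → ℕ, StrictMono φ ∧ (∀ i, Dec fun k => P i (φ k)) ∧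
      ∀ i, ∃ l, Tendsto (fun k => h i (φ k)) atTop (𝓝 l) := by
  classical
  obtain ⟨φ, hφ, hlim⟩ := exists_subseq_tendsto (ι := ι ⊕ κ)
    (Sum.elim (fun i k => if P i k then 1 else 0) h) (by
      rintro (i | i)
      · refine ⟨1, fun k => ?_⟩
        by_cases hP : P i k <;> simp [hP]
      · exact hb i)
  refine ⟨φ, hφ, fun i => ?_, fun i => hlim (Sum.inr i)⟩
  obtain ⟨l, hl⟩ := hlim (Sum.inl i)
  simp only [Sum.elim_inl] at hl
  by_cases h0 : l < 1/2
  · right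
    filter_upwards [hl.eventually_lt_const h0] with k hk hP
    rw [if_pos hP] at hk
    norm_num at hk
  · left
    have h1 : (1/4 : ℝ) < l := by linarith [not_lt.1 h0]
    filter_upwards [hl.eventually_const_lt h1] with k hk
    by_contra hP
    rw [if_neg hP] at hk
    norm_num at hk

/-- Greedy selection. -/
lemma exists_sparse (P : ℕ → ℕ → Prop) (Q : ℕ → ℕ → ℕ → ℕ → Prop)
    (hP : ∀ n, ∀ᶠ b in atTop, P n b) (hQ : ∀ i n a, ∀ᶠ b in atTop, Q i n a b) :
    ∃ s : ℕ → ℕ, StrictMono s ∧ (∀ n, P n (s n)) ∧ ∀ i n, i < n → Q i n (s i) (s n) := by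
  have key : ∀ n prev : ℕ, ∃ b, prev < b ∧ P n b ∧ ∀ a ≤ prev, ∀ i < n, Q i n a b := by
    intro n prev
    have h1 : ∀ᶠ b in atTop, ∀ a ≤ prev, ∀ i < n, Q i n a b := by
      have : ∀ a ∈ Finset.range (prev + 1), ∀ᶠ b in atTop, ∀ i ∈ Finset.range n, Q i n a b := by
        intro a _
        rw [Filter.eventually_all_finset]
        exact fun i _ => hQ i n a
      rw [← Filter.eventually_all_finset] at this
      filter_upwards [this] with b hb a ha i hi
      exact hb a (by simpa using Nat.lt_succ_of_le ha) i (by simpa using hi)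
    obtain ⟨b, h⟩ := ((eventually_gt_atTop prev).and ((hP n).and h1)).exists
    exact ⟨b, h.1, h.2.1, h.2.2⟩
  choose f hf1 hf2 hf3 using key
  let s : ℕ → ℕ := fun n => Nat.rec (f 0 0) (fun n prev => f (n + 1) prev) n
  have hs : ∀ n, s (n + 1) = f (n + 1) (s n) := fun n => rfl
  have hmono : StrictMono s := strictMono_nat_of_lt_succ fun n => by rw [hs]; exact hf1 _ _
  refine ⟨s, hmono, ?_, ?_⟩
  · intro n
    cases n with
    | zero => exact hf2 0 0
    | succ n => rw [hs]; exact hf2 _ _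
  · intro i n hin
    cases n with
    | zero => omega
    | succ n => rw [hs]; exact hf3 _ _ _ (hmono.monotone (by omega)) _ hin

/-- Tails of rows. -/
lemma row_tail {r : W → ℝ} {M : ℝ} (hr : ∀ F : Finset W, ∑ m ∈ F, |r m| ≤ M) {ε : ℝ} (hε : 0 < ε) :
    ∃ ℓ : ℕ, ∀ F : Finset W, (∀ m ∈ F, ℓ ≤ m.length) → ∑ m ∈ F, |r m| ≤ ε := by
  have hs : Summable fun m => |r m| := summable_of_sum_le (fun _ => abs_nonneg _) hr
  obtain ⟨s, hs⟩ := summable_iff_vanishing_norm.1 hs ε hε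
  obtain ⟨ℓ, hℓ⟩ := exists_length_bound_finset s
  refine ⟨ℓ + 1, fun F hF => ?_⟩
  have hd : Disjoint F s := by
    rw [Finset.disjoint_left]
    intro m hm hm'
    have := hℓ m hm'
    have := hF m hm
    omega
  have := hs F hd
  rw [Real.norm_eq_abs] at this
  exact (le_abs_self _).trans this.le

lemma geom_bound (δ : ℝ) (hδ : 0 ≤ δ) (N : ℕ) : ∑ j ∈ Finset.range N, δ / 2 ^ (j + 1) ≤ δ := by
  have : ∑ j ∈ Finset.range N, δ / 2 ^ (j + 1) = δ - δ / 2 ^ N := by
    induction N with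
    | zero => simp
    | succ N ih => rw [Finset.sum_range_succ, ih]; field_simp; ring
  rw [this]
  have : 0 ≤ δ / 2 ^ N := by positivity
  linarith

/-- The sparse subsequence lemma used in both kill lemmas. -/
lemma sparse {t : W → W → ℝ} {M : ℝ} (hrow : ∀ n, ∀ F : Finset W, ∑ m ∈ F, |t n m| ≤ M)
    (Y : Bool → ℕ → W) (Fs : Bool → ℕ → Finset W)
    (h1 : ∀ c c' : Bool, ∀ ε > 0, ∀ᶠ a in atTop, ∀ᶠ b in atTop, ∑ m ∈ Fs c a, |t (Y c' b) m| ≤ ε)
    (h2 : ∀ c, Tendsto (fun b => (Y c b).length) atTop atTop)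
    (h3 : ∀ c (ℓ : ℕ), ∀ᶠ b in atTop, ∀ m ∈ Fs c b, ℓ ≤ m.length) {δ : ℝ} (hδ : 0 < δ) :
    ∃ s : ℕ → ℕ, StrictMono s ∧
      (∀ k, ∀ F : Finset W, (∀ m ∈ F, ∃ j, j ≠ k ∧ m ∈ Fs j.bodd (s j)) →
        ∑ m ∈ F, |t (Y k.bodd (s k)) m| ≤ δ) ∧
      (∀ k j, j ≠ k → ∀ m ∈ Fs j.bodd (s j), ¬ rel (max j k) (Y k.bodd (s k)) m) ∧
      (∀ k j, j ≠ k → Disjoint (Fs j.bodd (s j)) (Fs k.bodd (s k))) := by
  classical
  let ε : ℕ → ℝ := fun n => δ / 2 ^ (n + 1)
  have hε : ∀ n, 0 < ε n := fun n => by positivity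
  obtain ⟨s, hs, hP, hQ⟩ := exists_sparse
    (fun n b => ∀ c' : Bool, ∀ᶠ b' in atTop, ∑ m ∈ Fs n.bodd b, |t (Y c' b') m| ≤ ε n)
    (fun i n a b =>
      ((∀ c' : Bool, ∀ᶠ b' in atTop, ∑ m ∈ Fs i.bodd a, |t (Y c' b') m| ≤ ε i) →
        ∑ m ∈ Fs i.bodd a, |t (Y n.bodd b) m| ≤ ε i) ∧
      (∑ m ∈ Fs n.bodd b, |t (Y i.bodd a) m| ≤ ε n) ∧
      (∀ m ∈ Fs i.bodd a, ¬ rel n (Y n.bodd b) m) ∧
      (∀ m ∈ Fs n.bodd b, ¬ rel n (Y i.bodd a) m) ∧
      Disjoint (Fs i.bodd a) (Fs n.bodd b))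
    (by
      intro n
      rw [Filter.eventually_all]
      intro c'
      exact h1 _ _ _ (hε n))
    (by
      intro i n a
      obtain ⟨ℓ, hℓ⟩ := row_tail (hrow (Y i.bodd a)) (hε n)
      obtain ⟨ℓ', hℓ'⟩ := exists_length_bound_finset (Fs i.bodd a)
      have e1 : ∀ᶠ b in atTop, ((∀ c' : Bool, ∀ᶠ b' in atTop,
          ∑ m ∈ Fs i.bodd a, |t (Y c' b') m| ≤ ε i) →
          ∑ m ∈ Fs i.bodd a, |t (Y n.bodd b) m| ≤ ε i) := by
        by_cases hc : ∀ c' : Bool, ∀ᶠ b' in atTop, ∑ m ∈ Fs i.bodd a, |t (Y c' b') m| ≤ ε i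
        · filter_upwards [hc n.bodd] with b hb _ using hb
        · exact Eventually.of_forall fun b hb => absurd hb hc
      filter_upwards [e1, h3 n.bodd ℓ, h3 n.bodd (ℓ' + 1),
        h3 n.bodd ((Y i.bodd a).length + n + 1),
        (h2 n.bodd).eventually_ge_atTop (ℓ' + n + 1)] with b b1 b2 b3 b4 b5
      refine ⟨b1, hℓ _ b2, ?_, ?_, ?_⟩
      · intro m hm hrel
        have := hrel.symm.length_le
        have := hℓ' m hm
        omega
      · intro m hm hrel
        have := hrel.length_le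
        have := b4 m hm
        omega
      · rw [Finset.disjoint_left]
        intro m hm hm'
        have := hℓ' m hm
        have := b3 m hm'
        omega)
  have hdis : ∀ k j, j ≠ k → Disjoint (Fs j.bodd (s j)) (Fs k.bodd (s k)) := by
    intro k j hjk
    rcases lt_or_gt_of_ne hjk with h | h
    · exact (hQ j k h).2.2.2.2
    · exact (hQ k j h).2.2.2.2.symm
  refine ⟨s, hs, ?_, ?_, hdis⟩
  · intro k F hF
    have hbd : ∀ j, j ≠ k → ∑ m ∈ Fs j.bodd (s j), |t (Y k.bodd (s k)) m| ≤ ε j := by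
      intro j hjk
      rcases lt_or_gt_of_ne hjk with h | h
      · exact (hQ j k h).1 (hP j)
      · exact (hQ k j h).2.1
    choose! g hg using hF
    obtain ⟨N, hN⟩ : ∃ N, ∀ m ∈ F, g m < N := by
      refine ⟨F.sup g + 1, fun m hm => Nat.lt_succ_of_le (Finset.le_sup (f := g) hm)⟩
    have hsub : F ⊆ ((Finset.range N).filter (· ≠ k)).biUnion fun j => Fs j.bodd (s j) := by
      intro m hm
      rw [Finset.mem_biUnion]
      exact ⟨g m, by simp [hN m hm, (hg m hm).1], (hg m hm).2⟩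
    calc ∑ m ∈ F, |t (Y k.bodd (s k)) m|
        ≤ ∑ m ∈ ((Finset.range N).filter (· ≠ k)).biUnion fun j => Fs j.bodd (s j),
            |t (Y k.bodd (s k)) m| :=
          Finset.sum_le_sum_of_subset_of_nonneg hsub fun _ _ _ => abs_nonneg _
      _ = ∑ j ∈ (Finset.range N).filter (· ≠ k), ∑ m ∈ Fs j.bodd (s j), |t (Y k.bodd (s k)) m| :=
          Finset.sum_biUnion fun i _ j _ hij => hdis j i hij
      _ ≤ ∑ j ∈ (Finset.range N).filter (· ≠ k), ε j := by
          refine Finset.sum_le_sum fun j hj => hbd j ?_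
          simpa using (Finset.mem_filter.1 hj).2
      _ ≤ ∑ j ∈ Finset.range N, ε j :=
          Finset.sum_le_sum_of_subset_of_nonneg (Finset.filter_subset _ _) fun j _ _ => (hε j).le
      _ ≤ δ := geom_bound δ hδ.le N
  · intro k j hjk m hm
    rcases lt_or_gt_of_ne hjk with h | h
    · rw [max_eq_right h.le]; exact (hQ j k h).2.2.1 m hm
    · rw [max_eq_left h.le]; exact (hQ k j h).2.2.2.1 m hm

end Pool.Agent.Helper15.CK
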