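import Mathlib

set_option autoImplicit false

/-! Words over a three letter alphabet, prefix and suffix coordinates. -/

open Filter

namespace Pool.Agent.Helper15.CK

/-- Finite words in three letters; `i :: w` adds a letter in front. -/
abbrev W := List (Fin 3)

/-- Infinite words, used as limits in the suffix coordinate. -/
abbrev Br := ℕ → Fin 3

/-- The word of length `k` whose letters, read from the end, are `α 0, α 1, ...`. -/
def suf (α : Br) : ℕ → W
  | 0 => []
  | k + 1 => α k :: suf α k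

@[simp] lemma suf_zero (α : Br) : suf α 0 = [] := rfl
@[simp] lemma suf_succ (α : Br) (k : ℕ) : suf α (k + 1) = α k :: suf α k := rfl

@[simp] lemma length_suf (α : Br) (k : ℕ) : (suf α k).length = k := by
  induction k with
  | zero => rfl
  | succ k ih => simp [ih]

lemma suf_suffix_suf (α : Br) {k l : ℕ} (h : k ≤ l) : suf α k <:+ suf α l := by
  induction l, h using Nat.le_induction with
  | base => exact List.suffix_refl _
  | succ l _ ih => exact ih.trans (by simp)

lemma suffix_mono {α : Br} {k l : ℕ} (h : k ≤ l) {w : W} (hw : suf α l <:+ w) : suf α k <:+ w :=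
  (suf_suffix_suf α h).trans hw

lemma le_length_of_suffix {α : Br} {k : ℕ} {w : W} (hw : suf α k <:+ w) : k ≤ w.length := by
  simpa using hw.length_le

lemma suffix_eq_of_length {a b w : W} (h1 : a <:+ w) (h2 : b <:+ w) (h : a.length = b.length) :
    a = b :=
  (List.suffix_of_suffix_length_le h1 h2 h.le).eq_of_length h

lemma suf_eq_of_suffix {α β : Br} {k : ℕ} {w : W} (h1 : suf α k <:+ w) (h2 : suf β k <:+ w) :
    suf α k = suf β k :=
  suffix_eq_of_length h1 h2 (by simp)

lemma suffix_of_append {a μ w : W} (h : a <:+ μ ++ w) (hl : a.length ≤ w.length) : a <:+ w :=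
  List.suffix_of_suffix_length_le h (List.suffix_append _ _) hl

lemma exists_suf_ne {α β : Br} (h : α ≠ β) : ∃ j, suf α j ≠ suf β j := by
  obtain ⟨i, hi⟩ := Function.ne_iff.1 h
  exact ⟨i + 1, fun h' => hi (by simpa using (List.cons.inj h').1)⟩

/-- `p` and `q` agree after removing at most `L` letters from the front of each. -/
def rel (L : ℕ) (p q : W) : Prop :=
  ∃ μ ν w : W, μ.length ≤ L ∧ ν.length ≤ L ∧ p = μ ++ w ∧ q = ν ++ w

lemma rel.symm {L : ℕ} {p q : W} (h : rel L p q) : rel L q p := by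
  obtain ⟨μ, ν, w, h1, h2, h3, h4⟩ := h
  exact ⟨ν, μ, w, h2, h1, h4, h3⟩

lemma rel.mono {L L' : ℕ} (hL : L ≤ L') {p q : W} (h : rel L p q) : rel L' p q := by
  obtain ⟨μ, ν, w, h1, h2, h3, h4⟩ := h
  exact ⟨μ, ν, w, h1.trans hL, h2.trans hL, h3, h4⟩

lemma rel.length_le {L : ℕ} {p q : W} (h : rel L p q) : q.length ≤ p.length + L := by
  obtain ⟨μ, ν, w, h1, h2, rfl, rfl⟩ := h
  simp only [List.length_append]; omega

/-- The words of length at most `L`. -/
noncomputable def wordsLE (L : ℕ) : Finset W := (List.finite_length_le (Fin 3) L).toFinset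

@[simp] lemma mem_wordsLE {L : ℕ} {w : W} : w ∈ wordsLE L ↔ w.length ≤ L := by
  simp [wordsLE]

/-- The finite set of words `L`-related to `p`. -/
noncomputable def ball (L : ℕ) (p : W) : Finset W :=
  ((Finset.range (L + 1)) ×ˢ (wordsLE L)).image (fun x => x.2 ++ p.drop x.1)

lemma mem_ball {L : ℕ} {p q : W} : q ∈ ball L p ↔ rel L p q := by
  simp only [ball, Finset.mem_image, Finset.mem_product, Finset.mem_range, mem_wordsLE, Prod.exists]
  constructor
  · rintro ⟨i, ν, ⟨hi, hν⟩, rfl⟩
    refine ⟨p.take i, ν, p.drop i, ?_, hν, (List.take_append_drop i p).symm, rfl⟩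
    simp only [List.length_take]; omega
  · rintro ⟨μ, ν, w, h1, h2, rfl, rfl⟩
    exact ⟨μ.length, ν, ⟨by omega, h2⟩, by simp⟩

/-- Uniform bound for the size of balls. -/
noncomputable def cB (L : ℕ) : ℕ := (L + 1) * (wordsLE L).card

lemma card_ball_le (L : ℕ) (p : W) : (ball L p).card ≤ cB L := by
  refine Finset.card_image_le.trans ?_
  simp [cB]

/-- The shifted set `{μ w : ν w ∈ A}`. -/
def sh (μ ν : W) (A : Set W) : Set W := {n | ∃ w, n = μ ++ w ∧ ν ++ w ∈ A}

/-- `A` converges to `α` in the suffix coordinate. -/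
def Conv (A : Set W) (α : Br) : Prop := ∀ k, {m ∈ A | ¬ suf α k <:+ m}.Finite

lemma sh_nil_nil (A : Set W) : sh [] [] A = A := by
  ext n; simp [sh]

lemma exists_length_bound {S : Set W} (h : S.Finite) : ∃ ℓ, ∀ m ∈ S, m.length ≤ ℓ := by
  obtain ⟨ℓ, hℓ⟩ := (h.image List.length).bddAbove
  exact ⟨ℓ, fun m hm => hℓ ⟨m, hm, rfl⟩⟩

lemma exists_length_bound_finset (S : Finset W) : ∃ ℓ, ∀ m ∈ S, m.length ≤ ℓ :=
  exists_length_bound (S := (S : Set W)) S.finite_toSet

/-- A sequence going to infinity with suffix limit `β` eventually avoids shifts of sets that converge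
to another branch. -/
lemma eventually_not_mem_sh {A : Set W} {α β : Br} (hA : Conv A α) (hne : α ≠ β) {n : ℕ → W}
    (hn : Tendsto (fun k => (n k).length) atTop atTop) (hβ : ∀ j, ∀ᶠ k in atTop, suf β j <:+ n k)
    (μ ν : W) : ∀ᶠ k in atTop, n k ∉ sh μ ν A := by
  obtain ⟨j, hj⟩ := exists_suf_ne hne
  obtain ⟨ℓ, hℓ⟩ := exists_length_bound (hA j)
  filter_upwards [hβ j, hn.eventually_ge_atTop (μ.length + ℓ + j + 1)] with k h1 h2
  rintro ⟨w, hw, hw'⟩
  by_cases h3 : suf α j <:+ ν ++ w
  · have hlen : (suf α j).length ≤ w.length := by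
      rw [hw] at h2; simp only [List.length_append] at h2; simp; omega
    have h4 : suf α j <:+ n k := by
      rw [hw]; exact (suffix_of_append h3 hlen).trans (List.suffix_append _ _)
    exact hj (suf_eq_of_suffix h4 h1)
  · have := hℓ _ ⟨hw', h3⟩
    rw [hw] at h2; simp only [List.length_append] at h2 this; omega

end Pool.Agent.Helper15.CK
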